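import Mathlib

open Set Filter Topology

namespace Pool.Agent.Lib.MP_d04ad0_an

/-- The parameter set `P`. -/
def params : Set (ℝ × ℝ) :=
  {p | p.1 ≤ 0 ∧ 0 ≤ p.2 ∧ 1 ≤ p.2 - p.1 ∧ -(p.1 * p.2) ≤ 1}

/-- The coordinate `k(x) = x / (1 + |x|)` of the real line. -/
noncomputable def kc (x : ℝ) : ℝ := x / (1 + |x|)

/-- The inverse `u / (1 - |u|)` of `k` on the open interval `(-1, 1)`. -/
noncomputable def kinv (u : ℝ) : ℝ := u / (1 - |u|)

/-- The map `k ∘ f_{a,b} ∘ k⁻¹` as a map of the interval `[-1, 1]`: on `[-1, k(a))` it is the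
translation `x ↦ x + 1` read through `k`, on `[k(a), k(b))` the inversion `x ↦ -1/x` read through
`k`, on `[k(b), 1]` the translation `x ↦ x - 1` read through `k`. The two endpoints `-1`, `1`
(which stand for the point at infinity) are fixed. The number `e`, which will be `-1` or `1`, is the
value at `0` when `0` lies in `[k(a), k(b))`, since there `-1/x` is infinite. -/
noncomputable def ftil (e a b : ℝ) (u : ℝ) : ℝ :=
  if u = -1 then -1
  else if u = 1 then 1
  else if u < kc a then kc (kinv u + 1)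
  else if u < kc b then (if u = 0 then e else kc (-1 / kinv u))
  else kc (kinv u - 1)

/-- The laps of `g` on `[-1, 1]`: maximal intervals on which `g` is monotone. -/
def laps (g : ℝ → ℝ) : Set (Set ℝ) :=
  {I | Maximal (fun J : Set ℝ => J ⊆ Icc (-1) 1 ∧ J.OrdConnected ∧
    (MonotoneOn g J ∨ AntitoneOn g J)) I}

/-- The laps of `g` on `[-1, 1]` in the other usual sense: maximal intervals on which `g` is
continuous and monotone. -/
def contLaps (g : ℝ → ℝ) : Set (Set ℝ) :=
  {I | Maximal (fun J : Set ℝ => J ⊆ Icc (-1) 1 ∧ J.OrdConnected ∧ ContinuousOn g J ∧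
    (MonotoneOn g J ∨ AntitoneOn g J)) I}

/-- `g` has topological entropy `h`: all iterates have finitely many laps and
`(1/n) log (number of laps of the n-th iterate)` tends to `h`, for laps in both senses. -/
def HasEntropy (g : ℝ → ℝ) (h : ℝ) : Prop :=
  (∀ n : ℕ, (laps g^[n]).Finite ∧ (contLaps g^[n]).Finite) ∧
  Tendsto (fun n : ℕ => Real.log ((laps g^[n]).ncard : ℝ) / n) atTop (𝓝 h) ∧
  Tendsto (fun n : ℕ => Real.log ((contLaps g^[n]).ncard : ℝ) / n) atTop (𝓝 h)

/-- Words: the itinerary of length `n` of a point. -/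
def word (code : ℝ → ℕ) (f : ℝ → ℝ) : ℕ → ℝ → List ℕ
  | 0, _ => []
  | n + 1, x => code x :: word code f n (f x)

end Pool.Agent.Lib.MP_d04ad0_an
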