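import Mathlib
import Pool.Agent.Lib.MP_d04ad0_an.Defs

open Set Filter Topology

namespace Pool.Agent.Lib.MP_d04ad0_an

theorem kc_nonneg {x : ℝ} (hx : 0 ≤ x) : kc x = x / (1 + x) := by
  rw [kc, abs_of_nonneg hx]

theorem kc_nonpos {x : ℝ} (hx : x ≤ 0) : kc x = x / (1 - x) := by
  rw [kc, abs_of_nonpos hx]; ring_nf

theorem neg_one_lt_kc (x : ℝ) : -1 < kc x := by
  rcases le_total 0 x with h | h
  · rw [kc_nonneg h]; have : 0 ≤ x / (1 + x) := by positivity
    linarith
  · rw [kc_nonpos h, lt_div_iff₀ (by linarith)]; linarith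

theorem kc_lt_one (x : ℝ) : kc x < 1 := by
  rcases le_total 0 x with h | h
  · rw [kc_nonneg h, div_lt_iff₀ (by linarith)]; linarith
  · rw [kc_nonpos h, div_lt_iff₀ (by linarith)]; linarith

theorem kc_nonneg' {x : ℝ} (hx : 0 ≤ x) : 0 ≤ kc x := by
  rw [kc_nonneg hx]; positivity

theorem kinv_neg {u : ℝ} (hu : u ≤ 0) : kinv u = u / (1 + u) := by
  rw [kinv, abs_of_nonpos hu]; ring_nf

theorem kinv_nonneg {u : ℝ} (hu : 0 ≤ u) : kinv u = u / (1 - u) := by
  rw [kinv, abs_of_nonneg hu]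

/-- branch 0 -/
theorem ftil_zero (e a b u : ℝ) (ha : kc a ≤ -(1 / 2)) (hu : -1 ≤ u) (hu' : u < kc a) :
    ftil e a b u = -2 - 1 / u := by
  rcases eq_or_lt_of_le hu with h | h
  · subst h; rw [ftil, if_pos rfl]; norm_num
  · have h1 : u < -(1 / 2) := lt_of_lt_of_le hu' ha
    have hA : (0 : ℝ) < 1 + u := by linarith
    have hu0 : u ≠ 0 := by linarith
    rw [ftil, if_neg (by linarith), if_neg (by linarith), if_pos hu', kinv_neg (by linarith)]
    have h2 : u / (1 + u) + 1 = (1 + 2 * u) / (1 + u) := by field_simp; ring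
    have h3 : (1 + 2 * u) / (1 + u) ≤ 0 := div_nonpos_of_nonpos_of_nonneg (by linarith) hA.le
    rw [h2, kc_nonpos h3]
    have h4 : 1 - (1 + 2 * u) / (1 + u) = -u / (1 + u) := by field_simp; ring
    rw [h4]
    have h5 : -u ≠ 0 := neg_ne_zero.2 hu0
    field_simp
    ring

/-- branch 1 -/
theorem ftil_one (e a b u : ℝ) (hb : 0 ≤ kc b) (hu : kc a ≤ u) (hu' : u < 0) :
    ftil e a b u = u + 1 := by
  have h1 : -1 < u := lt_of_lt_of_le (neg_one_lt_kc a) hu
  have hA : (0 : ℝ) < 1 + u := by linarith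
  have hu0 : u ≠ 0 := by linarith
  rw [ftil, if_neg (by linarith), if_neg (by linarith), if_neg (not_lt.2 hu), if_pos (by linarith),
    if_neg hu0, kinv_neg hu'.le]
  have h2 : -1 / (u / (1 + u)) = -(1 + u) / u := by field_simp
  have h3 : 0 ≤ -(1 + u) / u := div_nonneg_of_nonpos (by linarith) hu'.le
  rw [h2, kc_nonneg h3]
  have h4 : 1 + -(1 + u) / u = -1 / u := by field_simp; ring
  rw [h4]
  field_simp
  ring

/-- branch 3 -/
theorem ftil_three (e a b u : ℝ) (ha : kc a ≤ 0) (hu : 0 < u) (hu' : u < kc b) :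
    ftil e a b u = u - 1 := by
  have h1 : u < 1 := hu'.trans (kc_lt_one b)
  have hA : (0 : ℝ) < 1 - u := by linarith
  rw [ftil, if_neg (by linarith), if_neg (by linarith), if_neg (by linarith), if_pos hu',
    if_neg hu.ne', kinv_nonneg hu.le]
  have h2 : -1 / (u / (1 - u)) = -(1 - u) / u := by field_simp
  have h3 : -(1 - u) / u ≤ 0 := div_nonpos_of_nonpos_of_nonneg (by linarith) hu.le
  rw [h2, kc_nonpos h3]
  have h4 : 1 - -(1 - u) / u = 1 / u := by field_simp; ring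
  rw [h4]
  field_simp
  ring

/-- branch 4 -/
theorem ftil_four (e a b u : ℝ) (ha : kc a ≤ 0) (hu : 0 ≤ u) (hu' : kc b ≤ u) (h : u < 1 / 2) :
    ftil e a b u = (2 * u - 1) / (2 - 3 * u) := by
  have hA : (0 : ℝ) < 1 - u := by linarith
  have hB : (0 : ℝ) < 2 - 3 * u := by linarith
  rw [ftil, if_neg (by linarith), if_neg (by linarith), if_neg (by linarith),
    if_neg (not_lt.2 hu'), kinv_nonneg hu]
  have h2 : u / (1 - u) - 1 = (2 * u - 1) / (1 - u) := by field_simp; ring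
  have h3 : (2 * u - 1) / (1 - u) ≤ 0 := div_nonpos_of_nonpos_of_nonneg (by linarith) hA.le
  rw [h2, kc_nonpos h3]
  have h4 : 1 - (2 * u - 1) / (1 - u) = (2 - 3 * u) / (1 - u) := by field_simp; ring
  rw [h4]
  field_simp

/-- branch 5 -/
theorem ftil_five (e a b u : ℝ) (ha : kc a ≤ 0) (hu' : kc b ≤ u) (h : 1 / 2 ≤ u) (h1 : u ≤ 1) :
    ftil e a b u = 2 - 1 / u := by
  rcases eq_or_lt_of_le h1 with h2 | h2
  · subst h2; rw [ftil, if_neg (by norm_num), if_pos rfl]; norm_num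
  · have hA : (0 : ℝ) < 1 - u := by linarith
    have hu0 : 0 < u := by linarith
    rw [ftil, if_neg (by linarith), if_neg (by linarith), if_neg (by linarith),
      if_neg (not_lt.2 hu'), kinv_nonneg hu0.le]
    have h2 : u / (1 - u) - 1 = (2 * u - 1) / (1 - u) := by field_simp; ring
    have h3 : 0 ≤ (2 * u - 1) / (1 - u) := div_nonneg (by linarith) hA.le
    rw [h2, kc_nonneg h3]
    have h4 : 1 + (2 * u - 1) / (1 - u) = u / (1 - u) := by field_simp; ring
    rw [h4]
    field_simp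

end Pool.Agent.Lib.MP_d04ad0_an
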