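import Mathlib
import Pool.Agent.Lib.MP_d04ad0_an.Defs

/-!
# Laps of an expanding piecewise monotone map: lower and upper bounds
-/

open Set Filter Topology

namespace Pool.Agent.Lib.MP_d04ad0_an

namespace LapsAux

section words

variable {f W : ℝ → ℝ} {code : ℝ → ℕ} {lam : ℝ} {K : ℕ}

theorem word_rel (hf : MapsTo f (Icc (-1) 1) (Icc (-1) 1))
    (hrel : ∀ x ∈ Icc (-1 : ℝ) 1, ∀ y ∈ Icc (-1 : ℝ) 1, code x = code y →
      W (f x) - W (f y) = lam * (W x - W y)) (n : ℕ) :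
    ∀ x ∈ Icc (-1 : ℝ) 1, ∀ y ∈ Icc (-1 : ℝ) 1, word code f n x = word code f n y →
      W (f^[n] x) - W (f^[n] y) = lam ^ n * (W x - W y) := by
  induction n with
  | zero => intro x _ y _ _; simp
  | succ n ih =>
    intro x hx y hy h
    simp only [word, List.cons.injEq] at h
    rw [Function.iterate_succ_apply, Function.iterate_succ_apply,
      ih _ (hf hx) _ (hf hy) h.2, hrel x hx y hy h.1]
    ring

theorem word_convex (hf : MapsTo f (Icc (-1) 1) (Icc (-1) 1))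
    (hcode : MonotoneOn code (Icc (-1) 1)) (hW : StrictMonoOn W (Icc (-1) 1)) (hlam : 1 < lam)
    (hrel : ∀ x ∈ Icc (-1 : ℝ) 1, ∀ y ∈ Icc (-1 : ℝ) 1, code x = code y →
      W (f x) - W (f y) = lam * (W x - W y)) (n : ℕ) :
    ∀ x ∈ Icc (-1 : ℝ) 1, ∀ y ∈ Icc (-1 : ℝ) 1, ∀ z ∈ Icc x y,
      word code f n x = word code f n y → word code f n z = word code f n x := by
  induction n with
  | zero => intro x _ y _ z _ _; rfl
  | succ n ih =>
    intro x hx y hy z hz h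
    simp only [word, List.cons.injEq] at h ⊢
    have hzX : z ∈ Icc (-1 : ℝ) 1 := ⟨hx.1.trans hz.1, hz.2.trans hy.2⟩
    have hc1 : code z = code x :=
      le_antisymm ((hcode hzX hy hz.2).trans h.1.ge) (hcode hx hzX hz.1)
    have hle : ∀ u ∈ Icc (-1 : ℝ) 1, ∀ v ∈ Icc (-1 : ℝ) 1, u ≤ v → code u = code v → f u ≤ f v := by
      intro u hu v hv huv hc
      have h1 := hrel v hv u hu hc.symm
      have h2 : W u ≤ W v := hW.monotoneOn hu hv huv
      rw [← hW.le_iff_le (hf hu) (hf hv)]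
      nlinarith
    refine ⟨hc1, ?_⟩
    refine ih (f x) (hf hx) (f y) (hf hy) (f z) ⟨?_, ?_⟩ h.2
    · exact hle x hx z hzX hz.1 hc1.symm
    · exact hle z hzX y hy hz.2 (hc1.trans h.1)

theorem word_finite (hf : MapsTo f (Icc (-1) 1) (Icc (-1) 1))
    (hK : ∀ x ∈ Icc (-1 : ℝ) 1, code x < K) (n : ℕ) :
    (word code f n '' Icc (-1 : ℝ) 1).Finite := by
  induction n with
  | zero =>
    refine (finite_singleton ([] : List ℕ)).subset ?_
    rintro _ ⟨x, _, rfl⟩
    rfl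
  | succ n ih =>
    refine ((finite_Iio K).image2 List.cons ih).subset ?_
    rintro _ ⟨x, hx, rfl⟩
    exact ⟨code x, hK x hx, word code f n (f x), ⟨f x, hf hx, rfl⟩, rfl⟩

theorem word_cont (hf : MapsTo f (Icc (-1) 1) (Icc (-1) 1))
    (hcont : ∀ j, ContinuousOn f {x | x ∈ Icc (-1 : ℝ) 1 ∧ code x = j}) (n : ℕ) :
    ∀ w, ContinuousOn f^[n] {x | x ∈ Icc (-1 : ℝ) 1 ∧ word code f n x = w} := by
  induction n with
  | zero => intro w; exact continuousOn_id
  | succ n ih =>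
    intro w
    rw [Function.iterate_succ]
    rcases w with _ | ⟨c, w⟩
    · have : {x | x ∈ Icc (-1 : ℝ) 1 ∧ word code f (n + 1) x = []} = ∅ := by
        ext x; simp [word]
      rw [this]
      exact continuousOn_empty _
    · refine (ih w).comp ((hcont c).mono ?_) ?_
      · rintro x ⟨hx, h⟩
        simp only [word, List.cons.injEq] at h
        exact ⟨hx, h.1⟩
      · rintro x ⟨hx, h⟩
        simp only [word, List.cons.injEq] at h
        exact ⟨hf hx, h.2⟩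

end words

/-- A finite set of reals has a minimal gap. -/
theorem exists_gap {S : Set ℝ} (hS : S.Finite) :
    ∃ δ > 0, ∀ a ∈ S, ∀ b ∈ S, a < b → δ ≤ b - a := by
  have h : ∀ᶠ δ : ℝ in 𝓝[>] 0, ∀ p ∈ S ×ˢ S, p.1 < p.2 → δ ≤ p.2 - p.1 := by
    rw [Filter.eventually_all_finite (hS.prod hS)]
    intro p _
    rcases lt_or_ge p.1 p.2 with h | h
    · have h0 : (0 : ℝ) < p.2 - p.1 := sub_pos.mpr h
      filter_upwards [Ioo_mem_nhdsGT h0] with δ hδ _
      exact hδ.2.le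
    · exact Eventually.of_forall fun δ h' => absurd h' (not_lt.mpr h)
  obtain ⟨δ, hδ, hδ0⟩ := (h.and self_mem_nhdsWithin).exists
  exact ⟨δ, hδ0, fun a ha b hb => hδ (a, b) ⟨ha, hb⟩⟩

/-- The key estimate: where `F` is monotone, it expands `W` by the factor `L`. -/
theorem expand {F W : ℝ → ℝ} {L x y : ℝ} (hL : 0 < L) (hxy : x ≤ y)
    (hWc : ContinuousOn W (Icc x y)) (hWm : StrictMonoOn W (Icc x y))
    (hFW : MonotoneOn (fun z => W (F z)) (Icc x y))
    (hfin : ((fun z => W (F z) - L * W z) '' Icc x y).Finite) :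
    L * (W y - W x) ≤ W (F y) - W (F x) := by
  obtain ⟨δ, hδ, hgap⟩ := exists_gap hfin
  set φ : ℝ → ℝ := fun z => W (F z) - L * W z with hφ
  have hWxy : W x ≤ W y := hWm.monotoneOn ⟨le_rfl, hxy⟩ ⟨hxy, le_rfl⟩ hxy
  obtain ⟨N, hN⟩ := exists_nat_gt (L * (W y - W x) / δ)
  have hN0 : (0 : ℝ) < N := by
    refine lt_of_le_of_lt ?_ hN
    have : 0 ≤ W y - W x := sub_nonneg.mpr hWxy
    positivity
  have hstep : L * (W y - W x) / N < δ := by
    rw [div_lt_iff₀ hδ] at hN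
    rw [div_lt_iff₀ hN0]
    linarith
  have hpt : ∀ i : ℕ, i ≤ N → ∃ z ∈ Icc x y, W z = W x + i * ((W y - W x) / N) := by
    intro i hi
    have hi' : (i : ℝ) ≤ N := by exact_mod_cast hi
    have h1 : W x + i * ((W y - W x) / N) ∈ Icc (W x) (W y) := by
      have h0 : 0 ≤ W y - W x := sub_nonneg.mpr hWxy
      constructor
      · have : 0 ≤ (i : ℝ) * ((W y - W x) / N) := by positivity
        linarith
      · have : (i : ℝ) * ((W y - W x) / N) ≤ N * ((W y - W x) / N) := by gcongr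
        have h2 : (N : ℝ) * ((W y - W x) / N) = W y - W x := by field_simp
        linarith
    obtain ⟨z, hz, hz2⟩ := intermediate_value_Icc hxy hWc h1
    exact ⟨z, hz, hz2⟩
  choose! z hz hWz using hpt
  have hmain : ∀ i : ℕ, i ≤ N → φ x ≤ φ (z i) := by
    intro i
    induction i with
    | zero =>
      intro _
      have h0 := hWz 0 (Nat.zero_le _)
      have h1 : z 0 = x := by
        apply hWm.injOn (hz 0 (Nat.zero_le _)) ⟨le_rfl, hxy⟩
        rw [h0]; simp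
      rw [h1]
    | succ i ih =>
      intro hi
      have hi' : i ≤ N := Nat.le_of_succ_le hi
      refine (ih hi').trans ?_
      by_contra hcon
      rw [not_le] at hcon
      have h1 := hgap _ ⟨z (i + 1), hz _ hi, rfl⟩ _ ⟨z i, hz _ hi', rfl⟩ hcon
      have h2 : W (z (i + 1)) - W (z i) = (W y - W x) / N := by
        rw [hWz _ hi, hWz _ hi']
        push_cast
        ring
      have h3 : z i ≤ z (i + 1) := by
        rw [← hWm.le_iff_le (hz _ hi') (hz _ hi)]
        have : 0 ≤ (W y - W x) / N := by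
          have : 0 ≤ W y - W x := sub_nonneg.mpr hWxy
          positivity
        linarith
      have h4 := hFW (hz _ hi') (hz _ hi) h3
      simp only [hφ] at h1 h4
      have h5 : L * (W (z (i + 1)) - W (z i)) = L * (W y - W x) / N := by
        rw [h2]; ring
      nlinarith
  have hfin2 := hmain N le_rfl
  have h1 : z N = y := by
    apply hWm.injOn (hz N le_rfl) ⟨hxy, le_rfl⟩
    rw [hWz N le_rfl]
    field_simp
    ring
  rw [h1] at hfin2
  simp only [hφ] at hfin2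
  linarith

section glue

variable {F : ℝ → ℝ}

/-- `Good F b J`: `J` is an interval in `[-1,1]` on which `F` is monotone, and continuous if
`b`. -/
def Good (F : ℝ → ℝ) (b : Prop) (J : Set ℝ) : Prop :=
  J ⊆ Icc (-1) 1 ∧ J.OrdConnected ∧ (b → ContinuousOn F J) ∧ MonotoneOn F J

theorem ordConnected_union {I J : Set ℝ} (hI : I.OrdConnected) (hJ : J.OrdConnected)
    {c : ℝ} (hcI : c ∈ I) (hcJ : c ∈ J) : (I ∪ J).OrdConnected :=
  (IsPreconnected.union c hcI hcJ hI.isPreconnected hJ.isPreconnected).ordConnected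

theorem cont_union_aux {I J : Set ℝ} (hI : I.OrdConnected) (hJ : J.OrdConnected)
    {c : ℝ} (hcI : c ∈ I) (hcJ : c ∈ J) (h1 : ContinuousOn F I) (h2 : ContinuousOn F J)
    {x : ℝ} (hx : x ∈ I) : ContinuousWithinAt F (I ∪ J) x := by
  by_cases hxJ : x ∈ J
  · exact (h1 x hx).union (h2 x hxJ)
  · rcases lt_trichotomy c x with hcx | hcx | hcx
    · refine (h1 x hx).mono_of_mem_nhdsWithin ?_
      rw [mem_nhdsWithin_iff_exists_mem_nhds_inter]
      refine ⟨Ioi c, Ioi_mem_nhds hcx, ?_⟩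
      rintro y ⟨hy1, hy2 | hy2⟩
      · exact hy2
      · have hyx : y < x := by
          by_contra hcon
          rw [not_lt] at hcon
          exact hxJ (hJ.out hcJ hy2 ⟨hcx.le, hcon⟩)
        exact hI.out hcI hx ⟨hy1.le, hyx.le⟩
    · exact absurd (hcx ▸ hcJ) hxJ
    · refine (h1 x hx).mono_of_mem_nhdsWithin ?_
      rw [mem_nhdsWithin_iff_exists_mem_nhds_inter]
      refine ⟨Iio c, Iio_mem_nhds hcx, ?_⟩
      rintro y ⟨hy1, hy2 | hy2⟩
      · exact hy2
      · have hyx : x < y := by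
          by_contra hcon
          rw [not_lt] at hcon
          exact hxJ (hJ.out hy2 hcJ ⟨hcon, hcx.le⟩)
        exact hI.out hx hcI ⟨hyx.le, hy1.le⟩

theorem mono_union_aux {I J : Set ℝ} (hI : I.OrdConnected) (hJ : J.OrdConnected)
    {c : ℝ} (hcI : c ∈ I) (hcJ : c ∈ J) (h1 : MonotoneOn F I) (h2 : MonotoneOn F J)
    {x y : ℝ} (hx : x ∈ I) (hy : y ∈ J) (hxy : x ≤ y) : F x ≤ F y := by
  rcases le_total x c with hxc | hxc
  · rcases le_total c y with hcy | hcy
    · exact (h1 hx hcI hxc).trans (h2 hcJ hy hcy)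
    · exact h1 hx (hI.out hx hcI ⟨hxy, hcy⟩) hxy
  · exact h2 (hJ.out hcJ hy ⟨hxc, hxy⟩) hy hxy

theorem mono_union_aux' {I J : Set ℝ} (hI : I.OrdConnected) (hJ : J.OrdConnected)
    {c : ℝ} (hcI : c ∈ I) (hcJ : c ∈ J) (h1 : MonotoneOn F I) (h2 : MonotoneOn F J)
    {x y : ℝ} (hx : x ∈ I ∪ J) (hy : y ∈ I ∪ J) (hxy : x ≤ y) : F x ≤ F y := by
  rcases hx with hx | hx <;> rcases hy with hy | hy
  · exact h1 hx hy hxy
  · exact mono_union_aux hI hJ hcI hcJ h1 h2 hx hy hxy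
  · exact mono_union_aux hJ hI hcJ hcI h2 h1 hx hy hxy
  · exact h2 hx hy hxy

theorem Good.union {b : Prop} {I J : Set ℝ} (hI : Good F b I) (hJ : Good F b J)
    {c : ℝ} (hcI : c ∈ I) (hcJ : c ∈ J) : Good F b (I ∪ J) := by
  refine ⟨union_subset hI.1 hJ.1, ordConnected_union hI.2.1 hJ.2.1 hcI hcJ, ?_, ?_⟩
  · intro hb x hx
    rcases hx with hx | hx
    · exact cont_union_aux hI.2.1 hJ.2.1 hcI hcJ (hI.2.2.1 hb) (hJ.2.2.1 hb) hx
    · rw [union_comm]
      exact cont_union_aux hJ.2.1 hI.2.1 hcJ hcI (hJ.2.2.1 hb) (hI.2.2.1 hb) hx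
  · intro x hx y hy hxy
    exact mono_union_aux' hI.2.1 hJ.2.1 hcI hcJ hI.2.2.2 hJ.2.2.2 hx hy hxy

/-- The union of all good sets containing `p` is good. -/
theorem good_sUnion {b : Prop} (p : ℝ) :
    Good F b (⋃₀ {J | Good F b J ∧ p ∈ J}) := by
  set C := ⋃₀ {J | Good F b J ∧ p ∈ J} with hC
  have pair : ∀ x ∈ C, ∀ y ∈ C, ∃ J, Good F b J ∧ p ∈ J ∧ x ∈ J ∧ y ∈ J := by
    rintro x ⟨J, hJ, hxJ⟩ y ⟨J', hJ', hyJ'⟩
    exact ⟨J ∪ J', hJ.1.union hJ'.1 hJ.2 hJ'.2, Or.inl hJ.2, Or.inl hxJ, Or.inr hyJ'⟩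
  have sub : ∀ J, Good F b J → p ∈ J → J ⊆ C := fun J h1 h2 x hx => ⟨J, ⟨h1, h2⟩, hx⟩
  refine ⟨?_, ?_, ?_, ?_⟩
  · exact sUnion_subset fun J hJ => hJ.1.1
  · refine ⟨fun x hx y hy z hz => ?_⟩
    obtain ⟨J, hJ, hpJ, hxJ, hyJ⟩ := pair x hx y hy
    exact sub J hJ hpJ (hJ.2.1.out hxJ hyJ hz)
  · intro hb x hx
    have hsplit : C ⊆ (C ∩ Iic x) ∪ (C ∩ Ici x) := by
      intro y hy
      rcases le_total y x with h | h
      · exact Or.inl ⟨hy, h⟩
      · exact Or.inr ⟨hy, h⟩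
    refine ContinuousWithinAt.mono (ContinuousWithinAt.union ?_ ?_) hsplit
    · by_cases hex : ∃ a ∈ C, a < x
      · obtain ⟨a, ha, hax⟩ := hex
        obtain ⟨J, hJ, hpJ, haJ, hxJ⟩ := pair a ha x hx
        refine (hJ.2.2.1 hb x hxJ).mono_of_mem_nhdsWithin ?_
        rw [mem_nhdsWithin_iff_exists_mem_nhds_inter]
        refine ⟨Ioi a, Ioi_mem_nhds hax, ?_⟩
        rintro y ⟨hy1, hy2⟩
        exact hJ.2.1.out haJ hxJ ⟨hy1.le, hy2.2⟩
      · push Not at hex
        refine continuousWithinAt_singleton.mono (t := {x}) ?_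
        intro y hy
        exact le_antisymm hy.2 (hex y hy.1)
    · by_cases hex : ∃ a ∈ C, x < a
      · obtain ⟨a, ha, hax⟩ := hex
        obtain ⟨J, hJ, hpJ, haJ, hxJ⟩ := pair a ha x hx
        refine (hJ.2.2.1 hb x hxJ).mono_of_mem_nhdsWithin ?_
        rw [mem_nhdsWithin_iff_exists_mem_nhds_inter]
        refine ⟨Iio a, Iio_mem_nhds hax, ?_⟩
        rintro y ⟨hy1, hy2⟩
        exact hJ.2.1.out hxJ haJ ⟨hy2.2, hy1.le⟩
      · push Not at hex
        refine continuousWithinAt_singleton.mono (t := {x}) ?_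
        intro y hy
        exact le_antisymm (hex y hy.1) hy.2
  · intro x hx y hy hxy
    obtain ⟨J, hJ, hpJ, hxJ, hyJ⟩ := pair x hx y hy
    exact hJ.2.2.2 hxJ hyJ hxy

end glue

/-- The abstract counting statement. -/
theorem count {F W : ℝ → ℝ} {b : Prop} {L : ℝ} {α : Type*} (w : ℝ → α) (hL : 1 ≤ L)
    (hF : MapsTo F (Icc (-1) 1) (Icc (-1) 1))
    (hwfin : (w '' Icc (-1 : ℝ) 1).Finite)
    (hW : StrictMonoOn W (Icc (-1) 1)) (hWc : ContinuousOn W (Icc (-1) 1))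
    (hrel : ∀ x ∈ Icc (-1 : ℝ) 1, ∀ y ∈ Icc (-1 : ℝ) 1, w x = w y →
      W (F x) - W (F y) = L * (W x - W y))
    (hconv : ∀ x ∈ Icc (-1 : ℝ) 1, ∀ y ∈ Icc (-1 : ℝ) 1, ∀ z ∈ Icc x y, w x = w y → w z = w x)
    (hcont : ∀ a, ContinuousOn F {x | x ∈ Icc (-1 : ℝ) 1 ∧ w x = a}) :
    {I | Maximal (Good F b) I}.Finite ∧ L / 2 ≤ ({I | Maximal (Good F b) I}.ncard : ℝ) ∧
      {I | Maximal (Good F b) I}.ncard ≤ (w '' Icc (-1 : ℝ) 1).ncard := by
  have hL0 : 0 < L := by linarith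
  -- cylinders are good
  have hcyl : ∀ a, Good F b {x | x ∈ Icc (-1 : ℝ) 1 ∧ w x = a} := by
    intro a
    refine ⟨fun x hx => hx.1, ⟨?_⟩, fun _ => hcont a, ?_⟩
    · rintro x ⟨hx, hxa⟩ y ⟨hy, hya⟩ z hz
      exact ⟨⟨hx.1.trans hz.1, hz.2.trans hy.2⟩, (hconv x hx y hy z hz (hxa.trans hya.symm)).trans hxa⟩
    · rintro x ⟨hx, hxa⟩ y ⟨hy, hya⟩ hxy
      have h1 := hrel y hy x hx (hya.trans hxa.symm)
      have h2 : W x ≤ W y := hW.monotoneOn hx hy hxy
      rw [← hW.le_iff_le (hF hx) (hF hy)]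
      nlinarith
  -- every point lies in a maximal good set
  have hmax : ∀ p ∈ Icc (-1 : ℝ) 1, ∃ I, Maximal (Good F b) I ∧ p ∈ I := by
    intro p hp
    refine ⟨⋃₀ {J | Good F b J ∧ p ∈ J}, ⟨good_sUnion p, ?_⟩, ?_⟩
    · intro J hJ hsub x hx
      refine ⟨J, ⟨hJ, hsub ?_⟩, hx⟩
      exact ⟨_, ⟨hcyl (w p), ⟨hp, rfl⟩⟩, ⟨hp, rfl⟩⟩
    · exact ⟨_, ⟨hcyl (w p), ⟨hp, rfl⟩⟩, ⟨hp, rfl⟩⟩
  have hne : ∀ I, Maximal (Good F b) I → ∃ p ∈ I, p ∈ Icc (-1 : ℝ) 1 := by
    intro I hI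
    by_contra hcon
    push Not at hcon
    have h0 : (0 : ℝ) ∈ Icc (-1 : ℝ) 1 := by constructor <;> norm_num
    have hIe : I = ∅ := by
      ext x
      simp only [mem_empty_iff_false, iff_false]
      exact fun hx => hcon x hx (hI.1.1 hx)
    obtain ⟨I', hI', h0'⟩ := hmax 0 h0
    have := hI.2 hI'.1 (by rw [hIe]; exact empty_subset _) h0'
    rw [hIe] at this
    exact this
  choose! q hq hqX using hne
  -- injectivity of I ↦ w (q I)
  have hinj : ∀ I, Maximal (Good F b) I → ∀ I', Maximal (Good F b) I' →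
      w (q I) = w (q I') → I = I' := by
    intro I hI I' hI' hw
    set C := {x | x ∈ Icc (-1 : ℝ) 1 ∧ w x = w (q I)} with hCdef
    have hC : Good F b C := hcyl _
    have hqC : q I ∈ C := ⟨hqX I hI, rfl⟩
    have hqC' : q I' ∈ C := ⟨hqX I' hI', hw.symm⟩
    have h1 : C ⊆ I := by
      have := hI.2 (hI.1.union hC (hq I hI) hqC) subset_union_left
      exact subset_union_right.trans this
    have h3 : Good F b (I ∪ I') := hI.1.union hI'.1 (h1 hqC') (hq I' hI')
    have h4 : I' ⊆ I := subset_union_right.trans (hI.2 h3 subset_union_left)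
    have h5 : I ⊆ I' := subset_union_left.trans (hI'.2 h3 subset_union_right)
    exact subset_antisymm h5 h4
  have hmaps : ∀ I ∈ {I | Maximal (Good F b) I}, w (q I) ∈ w '' Icc (-1 : ℝ) 1 :=
    fun I hI => ⟨q I, hqX I hI, rfl⟩
  have hinjOn : InjOn (fun I => w (q I)) {I | Maximal (Good F b) I} :=
    fun I hI I' hI' h => hinj I hI I' hI' h
  have hfin : {I | Maximal (Good F b) I}.Finite :=
    Set.Finite.of_injOn hmaps hinjOn hwfin
  refine ⟨hfin, ?_, ncard_le_ncard_of_injOn _ hmaps hinjOn hwfin⟩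
  -- lower bound
  set Om := W 1 - W (-1) with hOm
  have hm1 : (-1 : ℝ) ∈ Icc (-1 : ℝ) 1 := by constructor <;> norm_num
  have h1m : (1 : ℝ) ∈ Icc (-1 : ℝ) 1 := by constructor <;> norm_num
  have hOm0 : 0 < Om := sub_pos.mpr (hW hm1 h1m (by norm_num))
  have hWrange : ∀ x ∈ Icc (-1 : ℝ) 1, W (-1) ≤ W x ∧ W x ≤ W 1 := fun x hx =>
    ⟨hW.monotoneOn hm1 hx hx.1, hW.monotoneOn hx h1m hx.2⟩
  -- two points of the same maximal good set are W-close
  have hclose : ∀ I, Good F b I → ∀ x ∈ I, ∀ y ∈ I, x ≤ y → L * (W y - W x) ≤ Om := by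
    intro I hI x hx y hy hxy
    have hsub : Icc x y ⊆ I := hI.2.1.out hx hy
    have hsubX : Icc x y ⊆ Icc (-1 : ℝ) 1 := hsub.trans hI.1
    have hexp := expand (F := F) (W := W) hL0 hxy (hWc.mono hsubX) (hW.mono hsubX) ?_ ?_
    · have h1 := (hWrange (F x) (hF (hI.1 hx))).1
      have h2 := (hWrange (F y) (hF (hI.1 hy))).2
      linarith
    · intro u hu v hv huv
      exact hW.monotoneOn (hF (hsubX hu)) (hF (hsubX hv)) (hI.2.2.2 (hsub hu) (hsub hv) huv)
    · -- finitely many values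
      have hval : ∀ x ∈ Icc (-1 : ℝ) 1, ∀ y ∈ Icc (-1 : ℝ) 1, w x = w y →
          W (F x) - L * W x = W (F y) - L * W y := by
        intro x hx y hy h
        have := hrel x hx y hy h
        linarith
      have : (fun z => W (F z) - L * W z) '' Icc (-1 : ℝ) 1 ⊆
          (fun a => W (F (Function.invFunOn w (Icc (-1 : ℝ) 1) a))
            - L * W (Function.invFunOn w (Icc (-1 : ℝ) 1) a)) '' (w '' Icc (-1 : ℝ) 1) := by
        rintro _ ⟨z, hz, rfl⟩
        refine ⟨w z, ⟨z, hz, rfl⟩, ?_⟩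
        have hex : ∃ a ∈ Icc (-1 : ℝ) 1, w a = w z := ⟨z, hz, rfl⟩
        exact hval _ (Function.invFunOn_mem hex) z hz (Function.invFunOn_eq hex)
      exact ((hwfin.image _).subset this).subset (image_mono hsubX)
  -- the points
  set M := ⌊L / 2⌋₊ with hM
  have hpt : ∀ j : ℕ, j ≤ M → ∃ p ∈ Icc (-1 : ℝ) 1, W p = W (-1) + 2 * j * (Om / L) := by
    intro j hj
    have hj' : (j : ℝ) ≤ L / 2 :=
      (Nat.cast_le.mpr hj).trans (Nat.floor_le (by positivity))
    have hmem : W (-1) + 2 * j * (Om / L) ∈ Icc (W (-1)) (W 1) := by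
      constructor
      · have : 0 ≤ 2 * (j : ℝ) * (Om / L) := by positivity
        linarith
      · have h2 : 2 * (j : ℝ) * (Om / L) ≤ 2 * (L / 2) * (Om / L) := by gcongr
        have h3 : 2 * (L / 2) * (Om / L) = Om := by field_simp
        linarith
    obtain ⟨p, hp, hp2⟩ := intermediate_value_Icc (by norm_num : (-1 : ℝ) ≤ 1) hWc hmem
    exact ⟨p, hp, hp2⟩
  choose! p hp hWp using hpt
  have hlap : ∀ j : ℕ, j ≤ M → ∃ I, Maximal (Good F b) I ∧ p j ∈ I := fun j hj => hmax _ (hp j hj)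
  choose! I hI hpI using hlap
  have hsep : ∀ i j : ℕ, i ≤ M → j ≤ M → i < j → I i ≠ I j := by
    intro i j hi hj hij heq
    have hij' : (i : ℝ) + 1 ≤ j := by exact_mod_cast hij
    have h1 : W (p j) - W (p i) = 2 * (j - i) * (Om / L) := by
      rw [hWp j hj, hWp i hi]; ring
    have h2 : 2 * (Om / L) ≤ W (p j) - W (p i) := by
      rw [h1]
      have : 0 < Om / L := by positivity
      nlinarith
    have h0 : 0 < Om / L := by positivity
    have hle : p i ≤ p j := by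
      rw [← hW.le_iff_le (hp i hi) (hp j hj)]
      linarith
    have h3 := hclose (I j) (hI j hj).1 (p i) (heq ▸ hpI i hi) (p j) (hpI j hj) hle
    have h4 : L * (2 * (Om / L)) ≤ L * (W (p j) - W (p i)) := by gcongr
    have h5 : L * (2 * (Om / L)) = 2 * Om := by field_simp
    linarith
  have hinjI : InjOn I (Finset.range (M + 1) : Set ℕ) := by
    intro i hi j hj hij
    simp only [Finset.coe_range, mem_Iio, Nat.lt_succ_iff] at hi hj
    rcases lt_trichotomy i j with h | h | h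
    · exact absurd hij (hsep i j hi hj h)
    · exact h
    · exact absurd hij.symm (hsep j i hj hi h)
  have hcard : M + 1 ≤ {I | Maximal (Good F b) I}.ncard := by
    have h1 : (I '' (Finset.range (M + 1) : Set ℕ)).ncard = M + 1 := by
      rw [hinjI.ncard_image, ncard_coe_finset, Finset.card_range]
    rw [← h1]
    refine ncard_le_ncard ?_ hfin
    rintro _ ⟨i, hi, rfl⟩
    simp only [Finset.coe_range, mem_Iio, Nat.lt_succ_iff] at hi
    exact hI i hi
  have h6 : L / 2 < (M : ℝ) + 1 := Nat.lt_floor_add_one _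
  have h7 : ((M + 1 : ℕ) : ℝ) ≤ ({I | Maximal (Good F b) I}.ncard : ℝ) := by exact_mod_cast hcard
  push_cast at h7
  linarith

end LapsAux

open LapsAux in
theorem laps_bounds (f W : ℝ → ℝ) (code : ℝ → ℕ) (K : ℕ) (lam : ℝ)
    (hf : MapsTo f (Icc (-1) 1) (Icc (-1) 1))
    (hcode : MonotoneOn code (Icc (-1) 1)) (hK : ∀ x ∈ Icc (-1 : ℝ) 1, code x < K)
    (hcont : ∀ j, ContinuousOn f {x | x ∈ Icc (-1 : ℝ) 1 ∧ code x = j})
    (hW : StrictMonoOn W (Icc (-1) 1)) (hWc : ContinuousOn W (Icc (-1) 1))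
    (hlam : 1 < lam)
    (hrel : ∀ x ∈ Icc (-1 : ℝ) 1, ∀ y ∈ Icc (-1 : ℝ) 1, code x = code y →
      W (f x) - W (f y) = lam * (W x - W y)) (n : ℕ) :
    ((laps f^[n]).Finite ∧ lam ^ n / 2 ≤ ((laps f^[n]).ncard : ℝ) ∧
      (laps f^[n]).ncard ≤ (word code f n '' Icc (-1 : ℝ) 1).ncard) ∧
    ((contLaps f^[n]).Finite ∧ lam ^ n / 2 ≤ ((contLaps f^[n]).ncard : ℝ) ∧
      (contLaps f^[n]).ncard ≤ (word code f n '' Icc (-1 : ℝ) 1).ncard) := by
  have hL : 1 ≤ lam ^ n := one_le_pow₀ hlam.le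
  have hFn : MapsTo f^[n] (Icc (-1) 1) (Icc (-1) 1) := hf.iterate n
  have hrel' := word_rel (code := code) hf hrel n
  have hconv' := word_convex hf hcode hW hlam hrel n
  have hfin' := word_finite (code := code) hf hK n
  have hcont' := word_cont hf hcont n
  -- antitone intervals are trivial
  have hanti : ∀ J : Set ℝ, J ⊆ Icc (-1) 1 → J.OrdConnected → AntitoneOn f^[n] J →
      MonotoneOn f^[n] J := by
    intro J hJX hJ hanti x hx y hy hxy
    rcases hxy.eq_or_lt with rfl | hlt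
    · exact le_rfl
    exfalso
    have hsub : Icc x y ⊆ J := hJ.out hx hy
    obtain ⟨u, hu, v, hv, huv, hw⟩ := (Icc_infinite hlt).exists_ne_map_eq_of_mapsTo
      (f := word code f n) (t := word code f n '' Icc (-1 : ℝ) 1)
      (fun z hz => ⟨z, hJX (hsub hz), rfl⟩) hfin'
    wlog huv' : u < v generalizing u v
    · exact this v hv u hu huv.symm hw.symm (lt_of_le_of_ne (not_lt.mp huv') huv.symm)
    have h1 := hrel' v (hJX (hsub hv)) u (hJX (hsub hu)) hw.symm
    have h2 : W u < W v := hW (hJX (hsub hu)) (hJX (hsub hv)) huv'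
    have h3 : f^[n] v ≤ f^[n] u := hanti (hsub hu) (hsub hv) huv'.le
    have h4 : W (f^[n] v) ≤ W (f^[n] u) :=
      hW.monotoneOn (hFn (hJX (hsub hv))) (hFn (hJX (hsub hu))) h3
    nlinarith
  have e1 : laps f^[n] = {I | Maximal (Good f^[n] False) I} := by
    have : (fun J : Set ℝ => J ⊆ Icc (-1) 1 ∧ J.OrdConnected ∧
        (MonotoneOn f^[n] J ∨ AntitoneOn f^[n] J)) = Good f^[n] False := by
      ext J
      constructor
      · rintro ⟨h1, h2, h3 | h3⟩
        · exact ⟨h1, h2, False.elim, h3⟩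
        · exact ⟨h1, h2, False.elim, hanti J h1 h2 h3⟩
      · rintro ⟨h1, h2, _, h3⟩
        exact ⟨h1, h2, Or.inl h3⟩
    rw [laps, this]
  have e2 : contLaps f^[n] = {I | Maximal (Good f^[n] True) I} := by
    have : (fun J : Set ℝ => J ⊆ Icc (-1) 1 ∧ J.OrdConnected ∧ ContinuousOn f^[n] J ∧
        (MonotoneOn f^[n] J ∨ AntitoneOn f^[n] J)) = Good f^[n] True := by
      ext J
      constructor
      · rintro ⟨h1, h2, hc, h3 | h3⟩
        · exact ⟨h1, h2, fun _ => hc, h3⟩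
        · exact ⟨h1, h2, fun _ => hc, hanti J h1 h2 h3⟩
      · rintro ⟨h1, h2, hc, h3⟩
        exact ⟨h1, h2, hc trivial, Or.inl h3⟩
    rw [contLaps, this]
  rw [e1, e2]
  exact ⟨count (word code f n) hL hFn hfin' hW hWc hrel' hconv' hcont',
    count (word code f n) hL hFn hfin' hW hWc hrel' hconv' hcont'⟩

end Pool.Agent.Lib.MP_d04ad0_an
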