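import Mathlib

open Set Filter Topology

namespace Pool.Agent.Lib.MP_d04ad0_an

theorem tendsto_of_bounds (A : ℕ → ℕ) (lam : ℝ) (hlam : 1 < lam)
    (h1 : ∀ n, lam ^ n / 2 ≤ (A n : ℝ))
    (h2 : ∀ r : ℝ, lam < r → ∃ C : ℝ, ∀ n : ℕ, (A n : ℝ) ≤ C * r ^ n) :
    Tendsto (fun n : ℕ => Real.log (A n : ℝ) / n) atTop (𝓝 (Real.log lam)) := by
  have hl0 : 0 < lam := by linarith
  have hApos : ∀ n, (0 : ℝ) < A n := fun n => lt_of_lt_of_le (by positivity) (h1 n)
  have hcd : ∀ c : ℝ, Tendsto (fun n : ℕ => c / (n : ℝ)) atTop (𝓝 0) := fun c =>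
    tendsto_const_div_atTop_nhds_zero_nat c
  rw [tendsto_order]
  constructor
  · intro a ha
    have hpos : 0 < Real.log lam - a := by linarith
    have h3 := (hcd (Real.log 2)).eventually_lt_const hpos
    filter_upwards [h3, eventually_gt_atTop 0] with n hn hn0
    have hn0' : (0 : ℝ) < n := by exact_mod_cast hn0
    have h4 : Real.log (lam ^ n / 2) ≤ Real.log (A n) :=
      Real.log_le_log (by positivity) (h1 n)
    rw [Real.log_div (by positivity) (by norm_num), Real.log_pow] at h4
    rw [lt_div_iff₀ hn0']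
    rw [div_lt_iff₀ hn0'] at hn
    nlinarith
  · intro a ha
    set e : ℝ := (a - Real.log lam) / 2 with he
    have hepos : 0 < e := by rw [he]; linarith
    obtain ⟨C, hC⟩ := h2 (lam * Real.exp e) (by
      have : 1 < Real.exp e := Real.one_lt_exp_iff.2 hepos
      nlinarith)
    have hCpos : 0 < C := by
      have := hC 0
      have h5 := hApos 0
      simp at this
      linarith
    have h3 := (hcd (Real.log C)).eventually_lt_const hepos
    filter_upwards [h3, eventually_gt_atTop 0] with n hn hn0
    have hn0' : (0 : ℝ) < n := by exact_mod_cast hn0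
    have h4 : Real.log (A n) ≤ Real.log (C * (lam * Real.exp e) ^ n) :=
      Real.log_le_log (hApos n) (hC n)
    rw [Real.log_mul (by positivity) (by positivity), Real.log_pow,
      Real.log_mul (by positivity) (by positivity), Real.log_exp] at h4
    rw [div_lt_iff₀ hn0']
    rw [div_lt_iff₀ hn0'] at hn
    have : a = Real.log lam + 2 * e := by rw [he]; ring
    rw [this]
    nlinarith

end Pool.Agent.Lib.MP_d04ad0_an
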