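import Mathlib
import Pool.Agent.Lib.MP_d04ad0_an.Defs

/-!
The number of itineraries of length `n` of a piecewise affine (in the coordinate `W`) expanding
map with slope `lam` is at most `C * r ^ n` for every `r > lam`.
-/

open Set Filter Topology

namespace Pool.Agent.Lib.MP_d04ad0_an

section Words

private lemma word_finite (f : ℝ → ℝ) (code : ℝ → ℕ) (K : ℕ)
    (hf : MapsTo f (Icc (-1) 1) (Icc (-1) 1))
    (hK : ∀ x ∈ Icc (-1 : ℝ) 1, code x < K) (n : ℕ) :
    (word code f n '' Icc (-1 : ℝ) 1).Finite := by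
  induction n with
  | zero =>
    refine (Set.finite_singleton ([] : List ℕ)).subset ?_
    rintro _ ⟨x, _, rfl⟩
    simp [word]
  | succ n ih =>
    refine ((Set.finite_Iio K).image2 List.cons ih).subset ?_
    rintro _ ⟨x, hx, rfl⟩
    exact ⟨code x, hK x hx, word code f n (f x), ⟨f x, hf hx, rfl⟩, rfl⟩

private lemma word_expand (f W : ℝ → ℝ) (code : ℝ → ℕ) (lam : ℝ)
    (hf : MapsTo f (Icc (-1) 1) (Icc (-1) 1))
    (hrel : ∀ x ∈ Icc (-1 : ℝ) 1, ∀ y ∈ Icc (-1 : ℝ) 1, code x = code y →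
      W (f x) - W (f y) = lam * (W x - W y)) (n : ℕ) :
    ∀ x ∈ Icc (-1 : ℝ) 1, ∀ y ∈ Icc (-1 : ℝ) 1, word code f n x = word code f n y →
      W (f^[n] x) - W (f^[n] y) = lam ^ n * (W x - W y) := by
  induction n with
  | zero => intro x _ y _ _; simp
  | succ n ih =>
    intro x hx y hy h
    simp only [word, List.cons.injEq] at h
    rw [Function.iterate_succ_apply, Function.iterate_succ_apply,
      ih _ (hf hx) _ (hf hy) h.2, hrel x hx y hy h.1]
    ring

private lemma word_convex (f W : ℝ → ℝ) (code : ℝ → ℕ) (lam : ℝ)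
    (hf : MapsTo f (Icc (-1) 1) (Icc (-1) 1))
    (hcode : MonotoneOn code (Icc (-1) 1))
    (hW : StrictMonoOn W (Icc (-1) 1)) (hlam : 1 < lam)
    (hrel : ∀ x ∈ Icc (-1 : ℝ) 1, ∀ y ∈ Icc (-1 : ℝ) 1, code x = code y →
      W (f x) - W (f y) = lam * (W x - W y)) (n : ℕ) :
    ∀ x ∈ Icc (-1 : ℝ) 1, ∀ z ∈ Icc (-1 : ℝ) 1, ∀ y ∈ Icc (-1 : ℝ) 1, x ≤ z → z ≤ y →
      word code f n x = word code f n y → word code f n z = word code f n x := by
  induction n with
  | zero => intro x _ z _ y _ _ _ _; simp [word]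
  | succ n ih =>
    intro x hx z hz y hy hxz hzy h
    simp only [word, List.cons.injEq] at h ⊢
    have h1 : code z = code x := by
      have a := hcode hx hz hxz
      have b := hcode hz hy hzy
      omega
    have h2 : code y = code z := by omega
    have e1 := hrel z hz x hx h1
    have e2 := hrel y hy z hz h2
    have m1 : W x ≤ W z := hW.monotoneOn hx hz hxz
    have m2 : W z ≤ W y := hW.monotoneOn hz hy hzy
    have l1 : f x ≤ f z := by
      rw [← hW.le_iff_le (hf hx) (hf hz)]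
      nlinarith
    have l2 : f z ≤ f y := by
      rw [← hW.le_iff_le (hf hz) (hf hy)]
      nlinarith
    exact ⟨h1, ih _ (hf hx) _ (hf hz) _ (hf hy) l1 l2 h.2⟩

private lemma word_add (f : ℝ → ℝ) (code : ℝ → ℕ) (m n : ℕ) (x : ℝ) :
    word code f (m + n) x = word code f m x ++ word code f n (f^[m] x) := by
  induction m generalizing x with
  | zero => simp [word]
  | succ m ih =>
    have : m + 1 + n = (m + n) + 1 := by ring
    rw [this]
    simp only [word, List.cons_append, Function.iterate_succ_apply]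
    rw [ih]

private lemma word_length (f : ℝ → ℝ) (code : ℝ → ℕ) (n : ℕ) (x : ℝ) :
    (word code f n x).length = n := by
  induction n generalizing x with
  | zero => simp [word]
  | succ n ih => simp [word, ih]

private lemma word_take (f : ℝ → ℝ) (code : ℝ → ℕ) {n N : ℕ} (h : n ≤ N) (x : ℝ) :
    (word code f N x).take n = word code f n x := by
  obtain ⟨k, rfl⟩ := Nat.exists_eq_add_of_le h
  rw [word_add]
  have := word_length f code n x
  rw [List.take_append_of_le_length (by omega), List.take_of_length_le (by omega)]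

private lemma iter_mem {f : ℝ → ℝ} (hf : MapsTo f (Icc (-1) 1) (Icc (-1) 1)) (n : ℕ) {x : ℝ}
    (hx : x ∈ Icc (-1 : ℝ) 1) : f^[n] x ∈ Icc (-1 : ℝ) 1 :=
  (hf.iterate n) hx

/-- There is `δ > 0` such that every set `{x | s ≤ W x < s + δ}` meets at most three cylinders of
level `m`. -/
private lemma exists_delta (f W : ℝ → ℝ) (code : ℝ → ℕ) (K : ℕ) (lam : ℝ)
    (hf : MapsTo f (Icc (-1) 1) (Icc (-1) 1))
    (hcode : MonotoneOn code (Icc (-1) 1)) (hK : ∀ x ∈ Icc (-1 : ℝ) 1, code x < K)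
    (hW : StrictMonoOn W (Icc (-1) 1)) (hlam : 1 < lam)
    (hrel : ∀ x ∈ Icc (-1 : ℝ) 1, ∀ y ∈ Icc (-1 : ℝ) 1, code x = code y →
      W (f x) - W (f y) = lam * (W x - W y)) (m : ℕ) :
    ∃ δ : ℝ, 0 < δ ∧ ∀ s : ℝ, ∃ T : Finset (List ℕ), T.card ≤ 3 ∧
      (∀ x ∈ Icc (-1 : ℝ) 1, s ≤ W x → W x < s + δ → word code f m x ∈ T) ∧
      (∀ u ∈ T, ∃ x ∈ Icc (-1 : ℝ) 1, s ≤ W x ∧ W x < s + δ ∧ word code f m x = u) := by
  classical
  have hfin := word_finite f code K hf hK m
  -- choose delta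
  have hd : ∀ u : List ℕ, ∃ d : ℝ, 0 < d ∧
      ((∃ p ∈ Icc (-1 : ℝ) 1, ∃ q ∈ Icc (-1 : ℝ) 1, p < q ∧ word code f m p = u ∧
        word code f m q = u) →
      ∃ p ∈ Icc (-1 : ℝ) 1, ∃ q ∈ Icc (-1 : ℝ) 1, p < q ∧ word code f m p = u ∧
        word code f m q = u ∧ d ≤ W q - W p) := by
    intro u
    by_cases h : ∃ p ∈ Icc (-1 : ℝ) 1, ∃ q ∈ Icc (-1 : ℝ) 1, p < q ∧ word code f m p = u ∧
        word code f m q = u
    · obtain ⟨p, hp, q, hq, hpq, h1, h2⟩ := h
      exact ⟨W q - W p, sub_pos.mpr (hW hp hq hpq), fun _ => ⟨p, hp, q, hq, hpq, h1, h2, le_rfl⟩⟩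
    · exact ⟨1, one_pos, fun h' => absurd h' h⟩
  choose d hd0 hd1 using hd
  have hev : ∀ᶠ δ in 𝓝[>] (0 : ℝ), ∀ u ∈ word code f m '' Icc (-1 : ℝ) 1, δ ≤ d u := by
    rw [eventually_all_finite hfin]
    intro u _
    have : ∀ᶠ δ in 𝓝 (0 : ℝ), δ < d u := gt_mem_nhds (hd0 u)
    exact (this.filter_mono nhdsWithin_le_nhds).mono fun _ h => h.le
  obtain ⟨δ, hδ, hδ0⟩ := (hev.and self_mem_nhdsWithin).exists
  have hδ0 : 0 < δ := hδ0
  refine ⟨δ, hδ0, ?_⟩
  intro s
  set J : Set ℝ := {x | x ∈ Icc (-1 : ℝ) 1 ∧ s ≤ W x ∧ W x < s + δ} with hJ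
  have hJfin : (word code f m '' J).Finite := by
    refine hfin.subset (image_mono ?_)
    intro x hx
    exact hx.1
  refine ⟨hJfin.toFinset, ?_, ?_, ?_⟩
  · by_contra hcon
    push Not at hcon
    -- representatives
    have hrep : ∀ u ∈ hJfin.toFinset, ∃ x ∈ J, word code f m x = u := by
      intro u hu
      rw [Set.Finite.mem_toFinset] at hu
      exact hu
    choose! r hrJ hru using hrep
    set R : Finset ℝ := hJfin.toFinset.image r with hR
    have hRcard : R.card = hJfin.toFinset.card := by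
      rw [hR, Finset.card_image_iff]
      intro u hu v hv huv
      rw [← hru u hu, ← hru v hv, huv]
    have hRJ : ∀ x ∈ R, x ∈ J := by
      intro x hx
      rw [hR, Finset.mem_image] at hx
      obtain ⟨u, hu, rfl⟩ := hx
      exact hrJ u hu
    have hRinj : ∀ x ∈ R, ∀ y ∈ R, word code f m x = word code f m y → x = y := by
      intro x hx y hy hxy
      rw [hR, Finset.mem_image] at hx hy
      obtain ⟨u, hu, rfl⟩ := hx
      obtain ⟨v, hv, rfl⟩ := hy
      rw [hru u hu, hru v hv] at hxy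
      rw [hxy]
    have h4 : 4 ≤ R.card := by omega
    let e := R.orderEmbOfFin rfl
    have he : ∀ i, e i ∈ R := fun i => R.orderEmbOfFin_mem rfl i
    set x1 := e ⟨0, by omega⟩
    set x2 := e ⟨1, by omega⟩
    set x3 := e ⟨2, by omega⟩
    set x4 := e ⟨3, by omega⟩
    have h12 : x1 < x2 := e.strictMono (by simp [Fin.lt_def])
    have h23 : x2 < x3 := e.strictMono (by simp [Fin.lt_def])
    have h34 : x3 < x4 := e.strictMono (by simp [Fin.lt_def])
    have k1 : x1 ∈ J := hRJ _ (he _)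
    have k2 : x2 ∈ J := hRJ _ (he _)
    have k3 : x3 ∈ J := hRJ _ (he _)
    have k4 : x4 ∈ J := hRJ _ (he _)
    have n12 : word code f m x1 ≠ word code f m x2 := fun h =>
      h12.ne (hRinj _ (he _) _ (he _) h)
    have n34 : word code f m x3 ≠ word code f m x4 := fun h =>
      h34.ne (hRinj _ (he _) _ (he _) h)
    have hinf : (Icc x2 x3).Infinite := Icc_infinite h23
    have hmaps : MapsTo (word code f m) (Icc x2 x3) (word code f m '' Icc (-1 : ℝ) 1) := by
      intro z hz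
      exact ⟨z, ⟨k2.1.1.trans hz.1, hz.2.trans k3.1.2⟩, rfl⟩
    obtain ⟨p, hp, q, hq, hpq, hw⟩ := hinf.exists_ne_map_eq_of_mapsTo hmaps hfin
    have hsub : ∀ z ∈ Icc x2 x3, z ∈ Icc (-1 : ℝ) 1 := fun z hz =>
      ⟨k2.1.1.trans hz.1, hz.2.trans k3.1.2⟩
    have hex : ∃ p' ∈ Icc (-1 : ℝ) 1, ∃ q' ∈ Icc (-1 : ℝ) 1, p' < q' ∧
        word code f m p' = word code f m p ∧ word code f m q' = word code f m p := by
      rcases lt_or_gt_of_ne hpq with h | h
      · exact ⟨p, hsub p hp, q, hsub q hq, h, rfl, hw.symm⟩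
      · exact ⟨q, hsub q hq, p, hsub p hp, h, hw.symm, rfl⟩
    obtain ⟨p', hp', q', hq', hpq', e1, e2, hdd⟩ := hd1 _ hex
    have hδd : δ ≤ d (word code f m p) := hδ _ ⟨p, hsub p hp, rfl⟩
    have hconv := word_convex f W code lam hf hcode hW hlam hrel m
    have hb : ∀ z ∈ Icc (-1 : ℝ) 1, word code f m z = word code f m p → x1 < z ∧ z < x4 := by
      intro z hz hzw
      constructor
      · by_contra hc
        push Not at hc
        -- z ≤ x1 < x2 ≤ p
        have a1 : word code f m x1 = word code f m z :=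
          hconv z hz x1 k1.1 p (hsub p hp) hc (h12.le.trans hp.1) hzw
        have a2 : word code f m x2 = word code f m z :=
          hconv z hz x2 k2.1 p (hsub p hp) (hc.trans h12.le) hp.1 hzw
        exact n12 (a1.trans a2.symm)
      · by_contra hc
        push Not at hc
        have a3 : word code f m x3 = word code f m p :=
          hconv p (hsub p hp) x3 k3.1 z hz hp.2 (h34.le.trans hc) hzw.symm
        have a4 : word code f m x4 = word code f m p :=
          hconv p (hsub p hp) x4 k4.1 z hz (hp.2.trans h34.le) hc hzw.symm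
        exact n34 (a3.trans a4.symm)
    have b1 := hb p' hp' e1
    have b2 := hb q' hq' e2
    have c1 : W x1 < W p' := hW k1.1 hp' b1.1
    have c2 : W q' < W x4 := hW hq' k4.1 b2.2
    have c3 := k1.2.1
    have c4 := k4.2.2
    linarith
  · intro x hx h1 h2
    rw [Set.Finite.mem_toFinset]
    exact ⟨x, ⟨hx, h1, h2⟩, rfl⟩
  · intro u hu
    rw [Set.Finite.mem_toFinset] at hu
    obtain ⟨x, ⟨hx, h1, h2⟩, h3⟩ := hu
    exact ⟨x, hx, h1, h2, h3⟩

theorem words_bound (f W : ℝ → ℝ) (code : ℝ → ℕ) (K : ℕ) (lam : ℝ)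
    (hf : MapsTo f (Icc (-1) 1) (Icc (-1) 1))
    (hcode : MonotoneOn code (Icc (-1) 1)) (hK : ∀ x ∈ Icc (-1 : ℝ) 1, code x < K)
    (hW : StrictMonoOn W (Icc (-1) 1))
    (hlam : 1 < lam)
    (hrel : ∀ x ∈ Icc (-1 : ℝ) 1, ∀ y ∈ Icc (-1 : ℝ) 1, code x = code y →
      W (f x) - W (f y) = lam * (W x - W y))
    (r : ℝ) (hr : lam < r) :
    ∃ C : ℝ, ∀ n : ℕ, ((word code f n '' Icc (-1 : ℝ) 1).ncard : ℝ) ≤ C * r ^ n := by
  classical
  have hlam0 : 0 < lam := by linarith
  have hr0 : 0 < r := by linarith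
  -- choice of m
  obtain ⟨m, hm1, hm⟩ : ∃ m : ℕ, 1 ≤ m ∧ 3 * (2 * lam ^ m + 2) ≤ r ^ m := by
    have h1 : 1 < r / lam := by rw [one_lt_div hlam0]; exact hr
    have h2 : Tendsto (fun m : ℕ => (r / lam) ^ m) atTop atTop :=
      tendsto_pow_atTop_atTop_of_one_lt h1
    obtain ⟨m, hm, hm1⟩ := ((h2.eventually_ge_atTop 12).and (eventually_ge_atTop 1)).exists
    refine ⟨m, hm1, ?_⟩
    rw [div_pow, le_div_iff₀ (by positivity)] at hm
    have h3 : 1 ≤ lam ^ m := one_le_pow₀ hlam.le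
    nlinarith
  obtain ⟨δ, hδ0, hδ⟩ := exists_delta f W code K lam hf hcode hK hW hlam hrel m
  set L : ℕ := ⌈2 * lam ^ m⌉₊ + 1 with hL
  have hLr : (3 * (L : ℝ)) ≤ r ^ m := by
    have h1 : (⌈2 * lam ^ m⌉₊ : ℝ) < 2 * lam ^ m + 1 := Nat.ceil_lt_add_one (by positivity)
    have h2 : (L : ℝ) = (⌈2 * lam ^ m⌉₊ : ℝ) + 1 := by rw [hL]; push_cast; ring
    rw [h2]
    linarith
  -- main induction
  have key : ∀ k : ℕ, ∀ s : ℝ, ∃ T : Finset (List ℕ), T.card ≤ (3 * L) ^ k ∧
      ∀ x ∈ Icc (-1 : ℝ) 1, s ≤ W x → W x < s + δ → word code f (k * m) x ∈ T := by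
    intro k
    induction k with
    | zero =>
      intro s
      refine ⟨{[]}, by simp, ?_⟩
      intro x _ _ _
      simp [word]
    | succ k ih =>
      intro s
      choose T hTc hT using ih
      obtain ⟨A, hAc, hA1, hA2⟩ := hδ s
      choose! g hgX hg1 hg2 hgw using hA2
      refine ⟨A.biUnion fun u => (Finset.range L).biUnion fun j =>
        (T (W (f^[m] (g u)) - lam ^ m * δ + j * δ)).image (fun v => u ++ v), ?_, ?_⟩
      · calc _ ≤ ∑ u ∈ A, ((Finset.range L).biUnion fun j =>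
            (T (W (f^[m] (g u)) - lam ^ m * δ + j * δ)).image (fun v => u ++ v)).card :=
              Finset.card_biUnion_le
          _ ≤ ∑ u ∈ A, L * (3 * L) ^ k := by
              refine Finset.sum_le_sum fun u _ => ?_
              calc _ ≤ ∑ j ∈ Finset.range L,
                  ((T (W (f^[m] (g u)) - lam ^ m * δ + j * δ)).image (fun v => u ++ v)).card :=
                    Finset.card_biUnion_le
                _ ≤ ∑ j ∈ Finset.range L, (3 * L) ^ k :=
                    Finset.sum_le_sum fun j _ => Finset.card_image_le.trans (hTc _)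
                _ = L * (3 * L) ^ k := by simp
          _ = A.card * (L * (3 * L) ^ k) := by simp
          _ ≤ 3 * (L * (3 * L) ^ k) := Nat.mul_le_mul_right _ hAc
          _ = (3 * L) ^ (k + 1) := by ring
      · intro x hx h1 h2
        have hu := hA1 x hx h1 h2
        set u := word code f m x with hu'
        rw [Finset.mem_biUnion]
        refine ⟨u, hu, ?_⟩
        have hgu := hgX u hu
        have hexp := word_expand f W code lam hf hrel m x hx (g u) hgu
          (hu'.symm.trans (hgw u hu).symm)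
        have hpow : 0 < lam ^ m := by positivity
        have hdiff1 : W x - W (g u) < δ := by linarith [hg1 u hu]
        have hdiff2 : -δ < W x - W (g u) := by linarith [hg2 u hu]
        set D := W (f^[m] x) - W (f^[m] (g u)) with hD
        have hD1 : D < lam ^ m * δ := by
          rw [hexp]; exact mul_lt_mul_of_pos_left hdiff1 hpow
        have hD2 : -(lam ^ m * δ) < D := by
          rw [hexp, ← mul_neg]; exact mul_lt_mul_of_pos_left hdiff2 hpow
        set q := (D + lam ^ m * δ) / δ with hq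
        have hq0 : 0 ≤ q := div_nonneg (by linarith) hδ0.le
        have hq1 : q < 2 * lam ^ m := by
          rw [hq, div_lt_iff₀ hδ0]; linarith
        have hqδ : q * δ = D + lam ^ m * δ := by
          rw [hq]; field_simp
        rw [Finset.mem_biUnion]
        refine ⟨⌊q⌋₊, ?_, ?_⟩
        · rw [Finset.mem_range, hL]
          have : (⌊q⌋₊ : ℝ) ≤ q := Nat.floor_le hq0
          have h3 : (⌊q⌋₊ : ℝ) ≤ ⌈2 * lam ^ m⌉₊ :=
            this.trans (hq1.le.trans (Nat.le_ceil _))
          have h4 : ⌊q⌋₊ ≤ ⌈2 * lam ^ m⌉₊ := by exact_mod_cast h3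
          omega
        · rw [Finset.mem_image]
          refine ⟨word code f (k * m) (f^[m] x), ?_, ?_⟩
          · have h3 : (⌊q⌋₊ : ℝ) * δ ≤ q * δ :=
              mul_le_mul_of_nonneg_right (Nat.floor_le hq0) hδ0.le
            have h4 : q * δ < ((⌊q⌋₊ : ℝ) + 1) * δ :=
              mul_lt_mul_of_pos_right (Nat.lt_floor_add_one q) hδ0
            refine hT _ _ (iter_mem hf m hx) ?_ ?_
            · linarith
            · linarith
          · have : (k + 1) * m = m + k * m := by ring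
            rw [this, word_add]
  -- cover of [-1,1]
  have hm1' : (-1 : ℝ) ∈ Icc (-1 : ℝ) 1 := by constructor <;> norm_num
  have hp1' : (1 : ℝ) ∈ Icc (-1 : ℝ) 1 := by constructor <;> norm_num
  set M : ℕ := ⌈(W 1 - W (-1)) / δ⌉₊ + 1 with hM
  have key2 : ∀ k : ℕ, ∃ T : Finset (List ℕ), T.card ≤ M * (3 * L) ^ k ∧
      ∀ x ∈ Icc (-1 : ℝ) 1, word code f (k * m) x ∈ T := by
    intro k
    choose T hTc hT using key k
    refine ⟨(Finset.range M).biUnion fun j => T (W (-1) + j * δ), ?_, ?_⟩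
    · calc _ ≤ ∑ j ∈ Finset.range M, (T (W (-1) + j * δ)).card := Finset.card_biUnion_le
        _ ≤ ∑ j ∈ Finset.range M, (3 * L) ^ k := Finset.sum_le_sum fun j _ => hTc _
        _ = M * (3 * L) ^ k := by simp
    · intro x hx
      set q := (W x - W (-1)) / δ with hq
      have h1 : W (-1) ≤ W x := hW.monotoneOn hm1' hx hx.1
      have h2 : W x ≤ W 1 := hW.monotoneOn hx hp1' hx.2
      have hq0 : 0 ≤ q := div_nonneg (by linarith) hδ0.le
      have hqδ : q * δ = W x - W (-1) := by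
        rw [hq]; field_simp
      have hq1 : q ≤ (W 1 - W (-1)) / δ := by
        rw [hq]; exact div_le_div_of_nonneg_right (by linarith) hδ0.le
      rw [Finset.mem_biUnion]
      refine ⟨⌊q⌋₊, ?_, ?_⟩
      · rw [Finset.mem_range, hM]
        have h3 : (⌊q⌋₊ : ℝ) ≤ ⌈(W 1 - W (-1)) / δ⌉₊ :=
          (Nat.floor_le hq0).trans (hq1.trans (Nat.le_ceil _))
        have h4 : ⌊q⌋₊ ≤ ⌈(W 1 - W (-1)) / δ⌉₊ := by exact_mod_cast h3
        omega
      · have h3 : (⌊q⌋₊ : ℝ) * δ ≤ q * δ :=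
          mul_le_mul_of_nonneg_right (Nat.floor_le hq0) hδ0.le
        have h4 : q * δ < ((⌊q⌋₊ : ℝ) + 1) * δ :=
          mul_lt_mul_of_pos_right (Nat.lt_floor_add_one q) hδ0
        refine hT _ _ hx ?_ ?_
        · linarith
        · linarith
  refine ⟨(M : ℝ) * (3 * L), ?_⟩
  intro n
  obtain ⟨T, hTc, hT⟩ := key2 (n / m + 1)
  have hn : n ≤ (n / m + 1) * m := by
    have := Nat.div_add_mod n m
    have h2 := Nat.mod_lt n (show 0 < m by omega)
    nlinarith
  have hsub : word code f n '' Icc (-1 : ℝ) 1 ⊆ ((T.image (List.take n) : Finset (List ℕ)) :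
      Set (List ℕ)) := by
    rintro _ ⟨x, hx, rfl⟩
    rw [Finset.coe_image]
    exact ⟨word code f ((n / m + 1) * m) x, hT x hx, word_take f code hn x⟩
  have hcard : (word code f n '' Icc (-1 : ℝ) 1).ncard ≤ M * (3 * L) ^ (n / m + 1) := by
    calc _ ≤ ((T.image (List.take n) : Finset (List ℕ)) : Set (List ℕ)).ncard :=
          Set.ncard_le_ncard hsub (Finset.finite_toSet _)
      _ = (T.image (List.take n)).card := Set.ncard_coe_finset _
      _ ≤ T.card := Finset.card_image_le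
      _ ≤ _ := hTc
  have hr1 : 1 ≤ r := by linarith
  have hpow : (3 * (L : ℝ)) ^ (n / m) ≤ r ^ n := by
    calc (3 * (L : ℝ)) ^ (n / m) ≤ (r ^ m) ^ (n / m) := by
          refine pow_le_pow_left₀ (by positivity) hLr _
      _ = r ^ (m * (n / m)) := by rw [← pow_mul]
      _ ≤ r ^ n := pow_le_pow_right₀ hr1 (Nat.mul_div_le n m)
  calc ((word code f n '' Icc (-1 : ℝ) 1).ncard : ℝ)
      ≤ ((M * (3 * L) ^ (n / m + 1) : ℕ) : ℝ) := by exact_mod_cast hcard
    _ = (M : ℝ) * (3 * L) * (3 * (L : ℝ)) ^ (n / m) := by push_cast; ring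
    _ ≤ (M : ℝ) * (3 * L) * r ^ n := by
        refine mul_le_mul_of_nonneg_left hpow (by positivity)

end Words

end Pool.Agent.Lib.MP_d04ad0_an
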