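import Mathlib
import Pool.Agent.Lib.MP_d04ad0_an.Defs
import Pool.Agent.Lib.MP_d04ad0_an.Ftil
import Pool.Agent.Lib.MP_d04ad0_an.Lim
import Pool.Agent.Lib.MP_d04ad0_an.Laps
import Pool.Agent.Lib.MP_d04ad0_an.Words

open Set Filter Topology

namespace Pool.Agent.Lib.MP_d04ad0_an

theorem entropy_of (f W : ℝ → ℝ) (code : ℝ → ℕ) (K : ℕ) (lam : ℝ)
    (hf : MapsTo f (Icc (-1) 1) (Icc (-1) 1))
    (hcode : MonotoneOn code (Icc (-1) 1)) (hK : ∀ x ∈ Icc (-1 : ℝ) 1, code x < K)
    (hcont : ∀ j, ContinuousOn f {x | x ∈ Icc (-1 : ℝ) 1 ∧ code x = j})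
    (hW : StrictMonoOn W (Icc (-1) 1)) (hWc : ContinuousOn W (Icc (-1) 1))
    (hlam : 1 < lam)
    (hrel : ∀ x ∈ Icc (-1 : ℝ) 1, ∀ y ∈ Icc (-1 : ℝ) 1, code x = code y →
      W (f x) - W (f y) = lam * (W x - W y)) :
    HasEntropy f (Real.log lam) := by
  have hL := laps_bounds f W code K lam hf hcode hK hcont hW hWc hlam hrel
  refine ⟨fun n => ⟨(hL n).1.1, (hL n).2.1⟩, ?_, ?_⟩
  · apply tendsto_of_bounds _ _ hlam (fun n => (hL n).1.2.1)
    intro r hr
    obtain ⟨C, hC⟩ := words_bound f W code K lam hf hcode hK hW hlam hrel r hr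
    exact ⟨C, fun n => le_trans (by exact_mod_cast (hL n).1.2.2) (hC n)⟩
  · apply tendsto_of_bounds _ _ hlam (fun n => (hL n).2.2.1)
    intro r hr
    obtain ⟨C, hC⟩ := words_bound f W code K lam hf hcode hK hW hlam hrel r hr
    exact ⟨C, fun n => le_trans (by exact_mod_cast (hL n).2.2.2) (hC n)⟩

/-- the code of a point: the index of its branch -/
noncomputable def cd (α β u : ℝ) : ℕ :=
  if u < α then 0 else if u < 0 then 1 else if u = 0 then 2 else if u < β then 3 else 4

theorem cd_mono (α β : ℝ) : Monotone (cd α β) := by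
  intro x y hxy
  unfold cd
  split_ifs <;> first | omega | (exfalso; linarith) | (exfalso; apply ‹¬ x = 0›; linarith)

theorem mapsTo_ftil (e a b : ℝ) (he : e = -1 ∨ e = 1) :
    MapsTo (ftil e a b) (Icc (-1) 1) (Icc (-1) 1) := by
  intro u _
  have h : ∀ x, kc x ∈ Icc (-1 : ℝ) 1 := fun x => ⟨(neg_one_lt_kc x).le, (kc_lt_one x).le⟩
  unfold ftil
  split_ifs
  · norm_num
  · norm_num
  · exact h _
  · rcases he with h | h <;> rw [h] <;> norm_num
  · exact h _
  · exact h _

theorem entropy_ftil (e a b lam : ℝ) (he : e = -1 ∨ e = 1) (ha : kc a ≤ -(1 / 2)) (hb : 0 ≤ kc b)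
    (hb' : kc b ≤ 1 / 2) (hlam : 1 < lam) (W : ℝ → ℝ)
    (hW : StrictMonoOn W (Icc (-1) 1)) (hWc : ContinuousOn W (Icc (-1) 1))
    (h0 : ∀ x ∈ Ico (-1 : ℝ) (kc a), ∀ y ∈ Ico (-1 : ℝ) (kc a),
        W (ftil e a b x) - W (ftil e a b y) = lam * (W x - W y))
    (h1 : ∀ x ∈ Ico (kc a : ℝ) 0, ∀ y ∈ Ico (kc a : ℝ) 0,
        W (ftil e a b x) - W (ftil e a b y) = lam * (W x - W y))
    (h3 : ∀ x ∈ Ioo (0 : ℝ) (kc b), ∀ y ∈ Ioo (0 : ℝ) (kc b),
        W (ftil e a b x) - W (ftil e a b y) = lam * (W x - W y))
    (h4 : ∀ x ∈ Icc (kc b) 1, ∀ y ∈ Icc (kc b) 1,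
        W (ftil e a b x) - W (ftil e a b y) = lam * (W x - W y)) :
    HasEntropy (ftil e a b) (Real.log lam) := by
  have ha0 : kc a ≤ 0 := by linarith
  apply entropy_of (ftil e a b) W (cd (kc a) (kc b)) 5 lam (mapsTo_ftil e a b he)
    ((cd_mono _ _).monotoneOn _) (fun x _ => by unfold cd; split_ifs <;> norm_num) ?_
    hW hWc hlam
  · intro x hx y hy hxy
    unfold cd at hxy
    by_cases hx1 : x < kc a
    · have hy1 : y < kc a := by
        by_contra hcon
        rw [if_pos hx1, if_neg hcon] at hxy
        split_ifs at hxy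
      exact h0 x ⟨hx.1, hx1⟩ y ⟨hy.1, hy1⟩
    · rw [if_neg hx1] at hxy
      by_cases hy1 : y < kc a
      · rw [if_pos hy1] at hxy
        split_ifs at hxy
      · rw [if_neg hy1] at hxy
        by_cases hx2 : x < 0
        · rw [if_pos hx2] at hxy
          have hy2 : y < 0 := by
            by_contra hcon
            rw [if_neg hcon] at hxy
            split_ifs at hxy <;> omega
          exact h1 x ⟨not_lt.1 hx1, hx2⟩ y ⟨not_lt.1 hy1, hy2⟩
        · rw [if_neg hx2] at hxy
          by_cases hy2 : y < 0
          · rw [if_pos hy2] at hxy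
            split_ifs at hxy <;> omega
          · rw [if_neg hy2] at hxy
            by_cases hx3 : x = 0
            · rw [if_pos hx3] at hxy
              have hy3 : y = 0 := by
                by_contra hcon
                rw [if_neg hcon] at hxy
                split_ifs at hxy <;> omega
              rw [hx3, hy3]; ring
            · rw [if_neg hx3] at hxy
              by_cases hy3 : y = 0
              · rw [if_pos hy3] at hxy
                split_ifs at hxy <;> omega
              · rw [if_neg hy3] at hxy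
                have hx0 : 0 < x := lt_of_le_of_ne (not_lt.1 hx2) (Ne.symm hx3)
                have hy0 : 0 < y := lt_of_le_of_ne (not_lt.1 hy2) (Ne.symm hy3)
                by_cases hx4 : x < kc b
                · rw [if_pos hx4] at hxy
                  have hy4 : y < kc b := by
                    by_contra hcon
                    rw [if_neg hcon] at hxy
                    omega
                  exact h3 x ⟨hx0, hx4⟩ y ⟨hy0, hy4⟩
                · rw [if_neg hx4] at hxy
                  have hy4 : ¬ y < kc b := by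
                    intro hcon
                    rw [if_pos hcon] at hxy
                    omega
                  exact h4 x ⟨not_lt.1 hx4, hx.2⟩ y ⟨not_lt.1 hy4, hy.2⟩
  · intro j
    have hsub : ∀ j, {x | x ∈ Icc (-1 : ℝ) 1 ∧ cd (kc a) (kc b) x = j} ⊆
        (if j = 0 then Ico (-1) (kc a) else if j = 1 then Ico (kc a) 0 else if j = 2 then {0}
          else if j = 3 then Ioo 0 (kc b) else Icc (kc b) 1) := by
      intro j x hx
      obtain ⟨hx, hj⟩ := hx
      unfold cd at hj
      split_ifs at hj
      · subst hj; simp; exact ⟨hx.1, by assumption⟩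
      · subst hj; simp; exact ⟨by linarith, by assumption⟩
      · subst hj; simp; assumption
      · subst hj
        rename_i h1 h2 h3 h4
        simp; exact ⟨lt_of_le_of_ne (not_lt.1 h2) (Ne.symm h3), h4⟩
      · subst hj
        rename_i h1 h2 h3 h4
        simp; exact ⟨not_lt.1 h4, hx.2⟩
    apply ContinuousOn.mono _ (hsub j)
    split_ifs
    · have : ContinuousOn (fun u : ℝ => -2 - 1 / u) (Ico (-1) (kc a)) := by
        apply continuousOn_const.sub
        apply continuousOn_const.div continuousOn_id
        intro x hx; have := hx.2; simp; linarith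
      exact this.congr fun u hu => ftil_zero e a b u ha hu.1 hu.2
    · have : ContinuousOn (fun u : ℝ => u + 1) (Ico (kc a) 0) := by fun_prop
      exact this.congr fun u hu => ftil_one e a b u hb hu.1 hu.2
    · exact continuousOn_singleton _ _
    · have : ContinuousOn (fun u : ℝ => u - 1) (Ioo 0 (kc b)) := by fun_prop
      exact this.congr fun u hu => ftil_three e a b u ha0 hu.1 hu.2
    · have hu : Icc (kc b) 1 = Icc (kc b) (1 / 2) ∪ Icc (1 / 2) 1 := by
        rw [Icc_union_Icc_eq_Icc hb' (by norm_num)]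
      rw [hu]
      apply ContinuousOn.union_of_isClosed _ _ isClosed_Icc isClosed_Icc
      · have : ContinuousOn (fun u : ℝ => (2 * u - 1) / (2 - 3 * u)) (Icc (kc b) (1 / 2)) := by
          apply ContinuousOn.div (by fun_prop) (by fun_prop)
          intro x hx; have := hx.2; linarith
        apply this.congr
        intro u hu
        rcases eq_or_lt_of_le hu.2 with h | h
        · rw [ftil_five e a b u ha0 hu.1 h.ge (by linarith), h]; norm_num
        · exact ftil_four e a b u ha0 (hb.trans hu.1) hu.1 h
      · have : ContinuousOn (fun u : ℝ => 2 - 1 / u) (Icc (1 / 2) 1) := by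
          apply continuousOn_const.sub
          apply continuousOn_const.div continuousOn_id
          intro x hx; have := hx.1; simp; linarith
        exact this.congr fun u hu => ftil_five e a b u ha0 (hb'.trans hu.1) hu.1 hu.2

end Pool.Agent.Lib.MP_d04ad0_an
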