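import Mathlib

namespace Pool.Agent.Lib.MP_d04ad0_an

open Set Filter Topology

theorem exists_M (t lam : ℝ) (ht0 : 0 < t) (htl : t * lam = 1) (hlam : lam = 1 + t ^ 2)
    (G : ℝ → ℝ)
    (hGc : ContinuousOn G (Icc 0 1)) (hGs : StrictAntiOn G (Icc 0 1)) (G0 : G 0 = 1) (G1 : G 1 = 0)
    (hGh : G (1 / 2) = t) :
    ∃ M : ℝ → ℝ, StrictAntiOn M (Ici 1) ∧ ContinuousOn M (Ici 1) ∧
      (∀ s ∈ Icc (1 : ℝ) 2, M s = lam - t * G (1 / s)) ∧ (∀ s, 2 ≤ s → M s = t * M (s - 1)) ∧
      (∀ n : ℕ, M (n + 1) = t ^ n * lam) ∧ ∀ s, 1 ≤ s → 0 < M s := by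
  set m : ℝ → ℝ := fun s => lam - t * G (1 / s) with hm
  set M : ℝ → ℝ := fun s => t ^ (⌈s⌉₊ - 2) * m (s - ((⌈s⌉₊ - 2 : ℕ) : ℝ)) with hM
  have hM1 : ∀ s ∈ Icc (1 : ℝ) 2, M s = lam - t * G (1 / s) := by
    intro s hs
    have : ⌈s⌉₊ ≤ 2 := Nat.ceil_le.2 (by exact_mod_cast hs.2)
    have h0 : ⌈s⌉₊ - 2 = 0 := by omega
    simp only [hM, h0, pow_zero, one_mul, Nat.cast_zero, sub_zero, hm]
  have hm1 : M 1 = lam := by
    rw [hM1 1 ⟨le_rfl, by norm_num⟩]
    simp [G1]
  have hM2 : ∀ s, 2 ≤ s → M s = t * M (s - 1) := by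
    intro s hs
    rcases hs.eq_or_lt with rfl | hs
    · rw [hM1 2 ⟨by norm_num, le_rfl⟩, hGh]
      have : (2 : ℝ) - 1 = 1 := by norm_num
      rw [this, hm1, htl, hlam]; ring
    · have h1 : ⌈s - 1⌉₊ = ⌈s⌉₊ - 1 := by
        have := Nat.ceil_sub_one s
        simpa using this
      have h2 : 2 < ⌈s⌉₊ := Nat.lt_ceil.2 (by exact_mod_cast hs)
      have h3 : ⌈s⌉₊ - 2 = (⌈s - 1⌉₊ - 2) + 1 := by omega
      simp only [hM]
      rw [h3, pow_succ, h1]
      have h4 : s - (((⌈s⌉₊ - 1 - 2 + 1 : ℕ)) : ℝ) = s - 1 - ((⌈s⌉₊ - 1 - 2 : ℕ) : ℝ) := by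
        push_cast; ring
      rw [h4]; ring
  have hMn : ∀ n : ℕ, M (n + 1) = t ^ n * lam := by
    intro n
    induction n with
    | zero => simp [hm1]
    | succ n ih =>
      have h2 : (2 : ℝ) ≤ ((n + 1 : ℕ) : ℝ) + 1 := by push_cast; linarith [n.cast_nonneg (α := ℝ)]
      rw [hM2 _ h2]
      have : ((n + 1 : ℕ) : ℝ) + 1 - 1 = n + 1 := by push_cast; ring
      rw [this, ih, pow_succ]; ring
  have h12 : StrictAntiOn M (Icc 1 2) := by
    intro x hx y hy hxy
    rw [hM1 x hx, hM1 y hy]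
    have hx0 : 0 < x := by linarith [hx.1]
    have hy0 : 0 < y := by linarith [hy.1]
    have hlt : 1 / y < 1 / x := one_div_lt_one_div_of_lt hx0 hxy
    have hGlt : G (1 / x) < G (1 / y) := by
      refine hGs ⟨by positivity, ?_⟩ ⟨by positivity, ?_⟩ hlt
      · rw [div_le_one hy0]; exact hy.1
      · rw [div_le_one hx0]; exact hx.1
    nlinarith
  have hanti : ∀ n : ℕ, StrictAntiOn M (Icc 1 (n + 2)) := by
    intro n
    induction n with
    | zero => simpa using h12
    | succ n ih =>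
      have hright : StrictAntiOn M (Icc (2 : ℝ) (((n + 1 : ℕ) : ℝ) + 2)) := by
        intro x hx y hy hxy
        rw [hM2 x hx.1, hM2 y hy.1]
        refine mul_lt_mul_of_pos_left (ih ?_ ?_ (by linarith)) ht0
        · refine ⟨by linarith [hx.1], ?_⟩
          have := hx.2; push_cast at this; linarith
        · refine ⟨by linarith [hy.1], ?_⟩
          have := hy.2; push_cast at this; linarith
      have hun : Icc (1 : ℝ) (((n + 1 : ℕ) : ℝ) + 2) =
          Icc (1 : ℝ) 2 ∪ Icc (2 : ℝ) (((n + 1 : ℕ) : ℝ) + 2) := by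
        rw [Icc_union_Icc_eq_Icc (by norm_num : (1 : ℝ) ≤ 2)
          (by push_cast; linarith [n.cast_nonneg (α := ℝ)])]
      rw [hun]
      refine StrictAntiOn.union h12 hright (c := 2) ?_ ?_
      · exact isGreatest_Icc (by norm_num)
      · exact isLeast_Icc (by push_cast; linarith [n.cast_nonneg (α := ℝ)])
  have hcont12 : ContinuousOn M (Icc 1 2) := by
    have : ContinuousOn (fun s : ℝ => lam - t * G (1 / s)) (Icc 1 2) := by
      refine continuousOn_const.sub (continuousOn_const.mul (hGc.comp ?_ ?_))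
      · refine continuousOn_const.div continuousOn_id fun x hx => ?_
        have : (1 : ℝ) ≤ x := hx.1
        positivity
      · intro x hx
        have hx0 : (0 : ℝ) < x := by linarith [hx.1]
        exact ⟨by positivity, by rw [div_le_one hx0]; exact hx.1⟩
    exact this.congr hM1
  have hcont : ∀ n : ℕ, ContinuousOn M (Icc 1 (n + 2)) := by
    intro n
    induction n with
    | zero => simpa using hcont12
    | succ n ih =>
      have hright : ContinuousOn M (Icc (2 : ℝ) (((n + 1 : ℕ) : ℝ) + 2)) := by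
        have : ContinuousOn (fun s : ℝ => t * M (s - 1)) (Icc (2 : ℝ) (((n + 1 : ℕ) : ℝ) + 2)) := by
          refine continuousOn_const.mul (ih.comp (by fun_prop) ?_)
          intro x hx
          refine ⟨by linarith [hx.1], ?_⟩
          have := hx.2; push_cast at this; linarith
        exact this.congr fun s hs => hM2 s hs.1
      have hun : Icc (1 : ℝ) (((n + 1 : ℕ) : ℝ) + 2) =
          Icc (1 : ℝ) 2 ∪ Icc (2 : ℝ) (((n + 1 : ℕ) : ℝ) + 2) := by
        rw [Icc_union_Icc_eq_Icc (by norm_num : (1 : ℝ) ≤ 2)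
          (by push_cast; linarith [n.cast_nonneg (α := ℝ)])]
      rw [hun]
      exact hcont12.union_of_isClosed hright isClosed_Icc isClosed_Icc
  refine ⟨M, ?_, ?_, hM1, hM2, hMn, ?_⟩
  · intro x hx y hy hxy
    obtain ⟨n, hn⟩ := exists_nat_gt y
    refine hanti n ⟨hx, by linarith⟩ ⟨hy, by linarith⟩ hxy
  · intro x hx
    obtain ⟨n, hn⟩ := exists_nat_gt x
    have h1 : ContinuousWithinAt M (Icc 1 (n + 2)) x := hcont n x ⟨hx, by linarith⟩
    refine h1.mono_of_mem_nhdsWithin ?_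
    have h2 : Iio ((n : ℝ) + 2) ∈ 𝓝 x := Iio_mem_nhds (by linarith)
    filter_upwards [mem_nhdsWithin_of_mem_nhds h2, self_mem_nhdsWithin] with y hy hy1
    exact ⟨hy1, hy.le⟩
  · intro s hs
    obtain ⟨n, hn⟩ := exists_nat_gt s
    have h1 : M (n + 1) = t ^ n * lam := hMn n
    have hlam0 : 0 < lam := by rw [hlam]; positivity
    have h2 : M (n + 1) < M s := by
      refine hanti n ⟨hs, by linarith⟩ ⟨by linarith [n.cast_nonneg (α := ℝ)], by linarith⟩ (by linarith)
    have h3 : 0 < t ^ n * lam := by positivity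
    linarith

theorem exists_W_endpoint (t : ℝ) (ht0 : 0 < t) (ht : t + t ^ 3 = 1) (G : ℝ → ℝ)
    (hGc : ContinuousOn G (Icc 0 1)) (hGs : StrictAntiOn G (Icc 0 1)) (G0 : G 0 = 1) (G1 : G 1 = 0)
    (hG1 : ∀ v ∈ Icc (0 : ℝ) 1, G (1 / (2 - v)) = t * G v)
    (hG2 : ∀ v ∈ Icc (0 : ℝ) 1, G (v / (1 + v)) = t + t ^ 3 * G v)
    (f : ℝ → ℝ) (hf0 : ∀ u ∈ Ico (-1 : ℝ) (-(1 / 2)), f u = -2 - 1 / u)
    (hf1 : ∀ u ∈ Ico (-(1 / 2) : ℝ) 0, f u = u + 1)
    (hf3 : ∀ u ∈ Ico (0 : ℝ) (1 / 2), f u = (2 * u - 1) / (2 - 3 * u))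
    (hf4 : ∀ u ∈ Icc (1 / 2 : ℝ) 1, f u = 2 - 1 / u) :
    ∃ W : ℝ → ℝ, StrictMonoOn W (Icc (-1) 1) ∧ ContinuousOn W (Icc (-1) 1) ∧
      (∀ x ∈ Ico (-1 : ℝ) (-(1 / 2)), ∀ y ∈ Ico (-1 : ℝ) (-(1 / 2)),
        W (f x) - W (f y) = t⁻¹ * (W x - W y)) ∧
      (∀ x ∈ Ico (-(1 / 2) : ℝ) 0, ∀ y ∈ Ico (-(1 / 2) : ℝ) 0,
        W (f x) - W (f y) = t⁻¹ * (W x - W y)) ∧
      (∀ x ∈ Icc (0 : ℝ) 1, ∀ y ∈ Icc (0 : ℝ) 1,
        W (f x) - W (f y) = t⁻¹ * (W x - W y)) := by
  set lam : ℝ := t⁻¹ with hlamdef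
  have htl : t * lam = 1 := mul_inv_cancel₀ ht0.ne'
  have hlam : lam = 1 + t ^ 2 := by
    have : t * (1 + t ^ 2) = 1 := by linarith [ht, (by ring : t * (1 + t ^ 2) = t + t ^ 3)]
    have h2 : t * lam = t * (1 + t ^ 2) := by rw [htl, this]
    exact mul_left_cancel₀ ht0.ne' h2
  have hlam0 : 0 < lam := by positivity
  have ht1 : t < 1 := by nlinarith [pow_pos ht0 3]
  have hGh : G (1 / 2) = t := by
    have := hG1 0 ⟨le_rfl, zero_le_one⟩
    simpa [G0] using this
  obtain ⟨M, hMs, hMc, hM1, hM2, hMn, hMpos⟩ := exists_M t lam ht0 htl hlam G hGc hGs G0 G1 hGh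
  have hM1' : M 1 = lam := by simpa using hMn 0
  set L : ℝ → ℝ := fun v => if v ≤ 0 then 0 else M (1 / v) with hL
  have hLpos : ∀ v, 0 < v → L v = M (1 / v) := fun v hv => by simp [hL, not_le.2 hv]
  have hL0 : L 0 = 0 := by simp [hL]
  have hL1 : L 1 = lam := by rw [hLpos 1 one_pos]; simpa using hM1'
  have hLs : StrictMonoOn L (Icc 0 1) := by
    intro x hx y hy hxy
    have hy0 : 0 < y := lt_of_le_of_lt hx.1 hxy
    have hy1 : 1 ≤ 1 / y := by rw [le_div_iff₀ hy0]; linarith [hy.2]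
    rw [hLpos y hy0]
    rcases hx.1.eq_or_lt with h | h
    · rw [← h, hL0]
      exact hMpos _ hy1
    · rw [hLpos x h]
      refine hMs hy1 ?_ (one_div_lt_one_div_of_lt h hxy)
      rw [mem_Ici, le_div_iff₀ h]; linarith [hx.2]
  have hLc : ContinuousOn L (Icc 0 1) := by
    intro x hx
    rcases hx.1.eq_or_lt with h | h
    · subst h
      rw [Metric.continuousWithinAt_iff]
      intro ε hε
      have htend : Tendsto (fun n : ℕ => t ^ n * lam) atTop (𝓝 0) := by
        have := (tendsto_pow_atTop_nhds_zero_of_lt_one ht0.le ht1).mul_const lam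
        simpa using this
      obtain ⟨n, hn⟩ := (htend.eventually (gt_mem_nhds hε)).exists
      refine ⟨1 / (n + 1), by positivity, fun y hy hyd => ?_⟩
      rw [Real.dist_eq, sub_zero] at hyd
      rw [hL0, Real.dist_eq, sub_zero]
      rcases hy.1.eq_or_lt with h0 | h0
      · rw [← h0, hL0, abs_zero]; exact hε
      · rw [hLpos y h0]
        have hy1 : 1 ≤ 1 / y := by rw [le_div_iff₀ h0]; linarith [hy.2]
        rw [abs_of_pos (hMpos _ hy1)]
        have hlt : (n : ℝ) + 1 < 1 / y := by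
          rw [abs_of_pos h0] at hyd
          rw [lt_div_iff₀ h0]
          rwa [lt_div_iff₀ (by positivity), mul_comm] at hyd
        have := hMs (by rw [mem_Ici]; linarith [n.cast_nonneg (α := ℝ)]) hy1 hlt
        rw [hMn] at this
        linarith
    · have h1 : ContinuousWithinAt (fun v => M (1 / v)) (Icc 0 1) x := by
        have hxne : x ≠ 0 := h.ne'
        have hmem : (1 : ℝ) / x ∈ Ici (1 : ℝ) := by
          rw [mem_Ici, le_div_iff₀ h]; linarith [hx.2]
        have hcomp : ContinuousWithinAt (fun v => M (1 / v)) (Ioc 0 1) x := by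
          refine (hMc _ hmem).comp (s := Ioc 0 1) (f := fun v => 1 / v) ?_ ?_
          · exact (continuousAt_const.div continuousAt_id hxne).continuousWithinAt
          · intro v hv
            rw [mem_Ici, le_div_iff₀ hv.1]; linarith [hv.2]
        refine hcomp.mono_of_mem_nhdsWithin ?_
        filter_upwards [mem_nhdsWithin_of_mem_nhds (Ioi_mem_nhds h), self_mem_nhdsWithin]
          with y hy hy1
        exact ⟨hy, hy1.2⟩
      refine h1.congr_of_eventuallyEq ?_ (hLpos x h)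
      filter_upwards [mem_nhdsWithin_of_mem_nhds (Ioi_mem_nhds h)] with y hy
      exact hLpos y hy
  set W : ℝ → ℝ := fun u => if u < 0 then L (1 + u) else 1 + lam - G u with hW
  have hWneg : ∀ u, u ≤ 0 → W u = L (1 + u) := by
    intro u hu
    rcases hu.lt_or_eq with h | h
    · simp [hW, h]
    · subst h
      simp only [hW, lt_irrefl, if_false, add_zero]
      rw [hL1, G0]; ring
  have hWpos : ∀ u, 0 ≤ u → W u = 1 + lam - G u := fun u hu => by simp [hW, not_lt.2 hu]
  have hIcc : Icc (-1 : ℝ) 1 = Icc (-1) 0 ∪ Icc 0 1 :=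
    (Icc_union_Icc_eq_Icc (by norm_num) (by norm_num)).symm
  refine ⟨W, ?_, ?_, ?_, ?_, ?_⟩
  · rw [hIcc]
    refine StrictMonoOn.union (c := 0) ?_ ?_ (isGreatest_Icc (by norm_num))
      (isLeast_Icc (by norm_num))
    · intro x hx y hy hxy
      rw [hWneg x hx.2, hWneg y hy.2]
      exact hLs ⟨by linarith [hx.1], by linarith [hx.2]⟩ ⟨by linarith [hy.1], by linarith [hy.2]⟩
        (by linarith)
    · intro x hx y hy hxy
      rw [hWpos x hx.1, hWpos y hy.1]
      linarith [hGs hx hy hxy]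
  · rw [hIcc]
    refine ContinuousOn.union_of_isClosed ?_ ?_ isClosed_Icc isClosed_Icc
    · have : ContinuousOn (fun u : ℝ => L (1 + u)) (Icc (-1) 0) := by
        refine hLc.comp (by fun_prop) fun x hx => ⟨by linarith [hx.1], by linarith [hx.2]⟩
      exact this.congr fun x hx => hWneg x hx.2
    · have : ContinuousOn (fun u : ℝ => 1 + lam - G u) (Icc 0 1) := continuousOn_const.sub hGc
      exact this.congr fun x hx => hWpos x hx.1
  · have key : ∀ x ∈ Ico (-1 : ℝ) (-(1 / 2)), W (f x) = lam * W x := by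
      intro x hx
      have hx0 : x < 0 := by linarith [hx.2]
      have h1 : 0 ≤ 1 + x := by linarith [hx.1]
      have h2 : (1 + x) < 1 / 2 := by linarith [hx.2]
      have hfx : 1 + f x = (1 + x) / (-x) := by
        have hxne : x ≠ 0 := hx0.ne
        rw [hf0 x hx]; field_simp; ring
      have hfx1 : (1 + x) / (-x) < 1 := by
        rw [div_lt_one (by linarith)]; linarith
      rw [hWneg (f x) (by linarith), hWneg x hx0.le, hfx]
      rcases h1.eq_or_lt with h | h
      · rw [← h]; simp [hL0]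
      · have hpos : 0 < (1 + x) / (-x) := div_pos h (by linarith)
        rw [hLpos _ hpos, hLpos _ h]
        have h3 : (2 : ℝ) ≤ 1 / (1 + x) := by rw [le_div_iff₀ h]; linarith
        rw [hM2 _ h3]
        have h4 : 1 / ((1 + x) / (-x)) = 1 / (1 + x) - 1 := by
          field_simp; ring
        rw [h4, ← mul_assoc, mul_comm lam t, htl, one_mul]
    intro x hx y hy
    rw [key x hx, key y hy]; ring
  · have key : ∀ x ∈ Ico (-(1 / 2) : ℝ) 0, W (f x) = lam * W x + 1 + lam - lam ^ 2 := by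
      intro x hx
      have h1 : 0 < 1 + x := by linarith [hx.1]
      rw [hf1 x hx, hWpos (x + 1) (by linarith), hWneg x hx.2.le, hLpos _ h1]
      have h3 : 1 / (1 + x) ∈ Icc (1 : ℝ) 2 := by
        constructor
        · rw [le_div_iff₀ h1]; linarith [hx.2]
        · rw [div_le_iff₀ h1]; linarith [hx.1]
      rw [hM1 _ h3, one_div_one_div, add_comm x 1]
      have : lam * (lam - t * G (1 + x)) = lam ^ 2 - (t * lam) * G (1 + x) := by ring
      rw [this, htl]; ring
    intro x hx y hy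
    rw [key x hx, key y hy]; ring
  · have key : ∀ x ∈ Icc (0 : ℝ) 1, W (f x) = lam * W x + 1 - lam ^ 2 := by
      intro x hx
      rw [hWpos x hx.1]
      rcases lt_or_ge x (1 / 2) with h | h
      · have h1x : 0 < 1 - x := by linarith
        have h23 : 0 < 2 - 3 * x := by linarith
        set v := x / (1 - x) with hv
        have hv0 : 0 ≤ v := div_nonneg hx.1 h1x.le
        have hv1 : v < 1 := by rw [hv, div_lt_one h1x]; linarith
        have hxv : v / (1 + v) = x := by rw [hv]; field_simp; ring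
        have h2v : 1 / (2 - v) = (1 - x) / (2 - 3 * x) := by
          have : 2 - v = (2 - 3 * x) / (1 - x) := by rw [hv]; field_simp; ring
          rw [this, one_div_div]
        have hfx : 1 + f x = 1 / (2 - v) := by
          have h23' : 2 - 3 * x ≠ 0 := h23.ne'
          rw [hf3 x ⟨hx.1, h⟩, h2v, eq_div_iff h23', add_mul, div_mul_cancel₀ _ h23']; ring
        have hvpos : 0 < 1 / (2 - v) := by apply one_div_pos.2; linarith
        have hfxneg : f x ≤ 0 := by
          have : 1 / (2 - v) ≤ 1 := by rw [div_le_one (by linarith)]; linarith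
          linarith
        rw [hWneg _ hfxneg, hfx, hLpos _ hvpos, one_div_one_div, hM1 (2 - v) ⟨by linarith, by linarith⟩,
          hG1 v ⟨hv0, hv1.le⟩]
        have hGx : G x = t + t ^ 3 * G v := by
          rw [← hG2 v ⟨hv0, hv1.le⟩, hxv]
        rw [hGx]
        have : lam * (1 + lam - (t + t ^ 3 * G v)) =
          lam + lam ^ 2 - (t * lam) - t ^ 2 * (t * lam) * G v := by ring
        rw [this, htl]; ring
      · set v := 2 - 1 / x with hv
        have hx0 : 0 < x := by linarith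
        have h1x : 1 / x ≤ 2 := by rw [div_le_iff₀ hx0]; linarith
        have h1x' : 1 ≤ 1 / x := by rw [le_div_iff₀ hx0]; linarith [hx.2]
        have hv0 : 0 ≤ v := by linarith
        have hv1 : v ≤ 1 := by linarith
        have hxv : 1 / (2 - v) = x := by rw [hv]; simp
        rw [hf4 x ⟨h, hx.2⟩, hWpos _ hv0]
        have hGx : G x = t * G v := by rw [← hG1 v ⟨hv0, hv1⟩, hxv]
        rw [hGx]
        have : lam * (1 + lam - t * G v) = lam + lam ^ 2 - (t * lam) * G v := by ring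
        rw [this, htl]; ring
    intro x hx y hy
    rw [key x hx, key y hy]; ring

end Pool.Agent.Lib.MP_d04ad0_an
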