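import Mathlib

open Set Filter Topology

namespace Pool.Agent.Lib.MP_d04ad0_an

theorem exists_W_family (t l β gD : ℝ) (ht0 : 1 / 2 ≤ t) (ht1 : t < 1) (hl : l * t = 1)
    (hgD : gD * (t * (1 - t ^ 2)) = 2 * t - 1) (hβ0 : 0 < β) (hβ : β ≤ 1 / 2) (G : ℝ → ℝ)
    (hGc : ContinuousOn G (Icc 0 1)) (hGs : StrictAntiOn G (Icc 0 1)) (G0 : G 0 = 1) (G1 : G 1 = 0)
    (hG1 : ∀ v ∈ Icc (0 : ℝ) 1, G (1 / (2 - v)) = t * G v)
    (hG2 : ∀ v ∈ Icc (0 : ℝ) 1, G (v / (1 + v)) = max (t + t ^ 3 * G v) (1 - t + t * G v))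
    (hGβ : G β = gD)
    (f : ℝ → ℝ) (hf0 : ∀ u ∈ Ico (-1 : ℝ) (β - 1), f u = -2 - 1 / u)
    (hf1 : ∀ u ∈ Ico (β - 1 : ℝ) 0, f u = u + 1)
    (hf2 : ∀ u ∈ Ioo (0 : ℝ) β, f u = u - 1)
    (hf3 : ∀ u ∈ Ico β (1 / 2), f u = (2 * u - 1) / (2 - 3 * u))
    (hf4 : ∀ u ∈ Icc (1 / 2 : ℝ) 1, f u = 2 - 1 / u) :
    ∃ W : ℝ → ℝ, StrictMonoOn W (Icc (-1) 1) ∧ ContinuousOn W (Icc (-1) 1) ∧
      (∀ x ∈ Ico (-1 : ℝ) (β - 1), ∀ y ∈ Ico (-1 : ℝ) (β - 1),
        W (f x) - W (f y) = l * (W x - W y)) ∧
      (∀ x ∈ Ico (β - 1 : ℝ) 0, ∀ y ∈ Ico (β - 1 : ℝ) 0,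
        W (f x) - W (f y) = l * (W x - W y)) ∧
      (∀ x ∈ Ioo (0 : ℝ) β, ∀ y ∈ Ioo (0 : ℝ) β,
        W (f x) - W (f y) = l * (W x - W y)) ∧
      (∀ x ∈ Icc β 1, ∀ y ∈ Icc β 1,
        W (f x) - W (f y) = l * (W x - W y)) := by
  have htpos : 0 < t := by linarith
  have hlpos : 0 < l := by
    by_contra hcon
    push Not at hcon
    have : l * t ≤ 0 := mul_nonpos_of_nonpos_of_nonneg hcon htpos.le
    linarith
  have hl1 : 1 < l := by nlinarith
  have hl2 : l ≤ 2 := by nlinarith
  have ht2 : 0 < 1 - t ^ 2 := by nlinarith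
  -- the identity for gD
  have hid : gD * (l - t) = 2 * l - l ^ 2 := by
    have h1 : gD * (l - t) = l ^ 2 * (gD * (t * (1 - t ^ 2))) := by
      have : l ^ 2 * (gD * (t * (1 - t ^ 2))) = gD * (l * (l * t) - t * (l * t) ^ 2) := by ring
      rw [this, hl]; ring
    rw [h1, hgD]
    have : l ^ 2 * (2 * t - 1) = 2 * l * (l * t) - l ^ 2 := by ring
    rw [this, hl]; ring
  have hlt : 0 < l - t := by linarith
  set A : ℝ → ℝ := fun u => l * (1 - G (1 + u)) with hA
  set B : ℝ → ℝ := fun u => l ^ 2 - l - t * G (1 + u) with hB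
  set C : ℝ → ℝ := fun u => 1 + l ^ 2 - l - G u with hC
  have hAB : ∀ u, A u - B u = (l - t) * (gD - G (1 + u)) := by
    intro u; simp only [hA, hB]; nlinarith
  have hmem : ∀ u ∈ Icc (-1 : ℝ) 0, 1 + u ∈ Icc (0 : ℝ) 1 := fun u hu =>
    ⟨by linarith [hu.1], by linarith [hu.2]⟩
  have hβm : β ∈ Icc (0 : ℝ) 1 := ⟨hβ0.le, by linarith⟩
  have hminA : ∀ u, -1 ≤ u → u ≤ β - 1 → min (A u) (B u) = A u := by
    intro u h1 h2
    apply min_eq_left
    have h3 : gD ≤ G (1 + u) := by
      rw [← hGβ]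
      exact hGs.antitoneOn ⟨by linarith, by linarith⟩ hβm (by linarith)
    have := hAB u
    nlinarith
  have hminB : ∀ u, β - 1 ≤ u → u ≤ 0 → min (A u) (B u) = B u := by
    intro u h1 h2
    apply min_eq_right
    have h3 : G (1 + u) ≤ gD := by
      rw [← hGβ]
      exact hGs.antitoneOn hβm ⟨by linarith, by linarith⟩ (by linarith)
    have := hAB u
    nlinarith
  have hB0 : B 0 = C 0 := by simp only [hB, hC]; rw [G0, add_zero, G1]; ring
  set W : ℝ → ℝ := fun u => if u ≤ 0 then min (A u) (B u) else C u with hW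
  have hWneg : ∀ u, u ≤ 0 → W u = min (A u) (B u) := fun u hu => by simp only [hW]; rw [if_pos hu]
  have hWpos : ∀ u, 0 ≤ u → W u = C u := by
    intro u hu
    rcases eq_or_lt_of_le hu with h | h
    · rw [← h, hWneg 0 le_rfl, hminB 0 (by linarith) le_rfl, hB0]
    · simp only [hW]; rw [if_neg (by linarith)]
  have hGneg : StrictAntiOn (fun u => G (1 + u)) (Icc (-1) 0) := by
    intro x hx y hy hxy
    exact hGs (hmem x hx) (hmem y hy) (by linarith)
  have hGnegc : ContinuousOn (fun u => G (1 + u)) (Icc (-1) 0) := by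
    apply hGc.comp (by fun_prop)
    intro x hx; exact hmem x hx
  have hmono1 : StrictMonoOn W (Icc (-1) 0) := by
    intro x hx y hy hxy
    rw [hWneg x hx.2, hWneg y hy.2]
    have h1 := hGneg hx hy hxy
    simp only at h1
    apply lt_min
    · refine lt_of_le_of_lt (min_le_left _ _) ?_
      simp only [hA]; nlinarith
    · refine lt_of_le_of_lt (min_le_right _ _) ?_
      simp only [hB]; nlinarith
  have hmono2 : StrictMonoOn W (Icc 0 1) := by
    intro x hx y hy hxy
    rw [hWpos x hx.1, hWpos y hy.1]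
    have h1 := hGs hx hy hxy
    simp only [hC]; linarith
  have hunion : Icc (-1 : ℝ) 0 ∪ Icc 0 1 = Icc (-1) 1 :=
    Icc_union_Icc_eq_Icc (by norm_num) (by norm_num)
  have hcont1 : ContinuousOn W (Icc (-1) 0) := by
    have : ContinuousOn (fun u => min (A u) (B u)) (Icc (-1) 0) := by
      exact continuous_min.comp_continuousOn
        ((continuousOn_const.mul (continuousOn_const.sub hGnegc)).prodMk
        (continuousOn_const.sub (continuousOn_const.mul hGnegc)))
    exact this.congr fun u hu => hWneg u hu.2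
  have hcont2 : ContinuousOn W (Icc 0 1) := by
    have : ContinuousOn C (Icc 0 1) := continuousOn_const.sub hGc
    exact this.congr fun u hu => hWpos u hu.1
  refine ⟨W, ?_, ?_, ?_, ?_, ?_, ?_⟩
  · rw [← hunion]
    exact hmono1.union hmono2 (isGreatest_Icc (by norm_num)) (isLeast_Icc (by norm_num))
  · rw [← hunion]
    exact hcont1.union_of_isClosed hcont2 isClosed_Icc isClosed_Icc
  · -- class 0
    have key : ∀ x ∈ Ico (-1 : ℝ) (β - 1), W (f x) = l * W x := by
      intro x hx
      have hx0 : x < 0 := by linarith [hx.2]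
      have hx1 : x < -(1 / 2) := by linarith [hx.2]
      have hxne : x ≠ 0 := hx0.ne
      set w : ℝ := (1 + x) / (-x) with hw
      have hnx : 0 < -x := by linarith
      have hw0 : 0 ≤ w := div_nonneg (by linarith [hx.1]) hnx.le
      have hw1 : w < 1 := by rw [hw, div_lt_one hnx]; linarith
      have hfx : 1 + f x = w := by
        rw [hf0 x hx, hw]; field_simp; ring
      have hwx : w / (1 + w) = 1 + x := by
        have : 1 + w = 1 / (-x) := by rw [hw]; field_simp; ring
        rw [this, hw]; field_simp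
      have hfx0 : f x ≤ 0 := by linarith
      rw [hWneg _ hfx0, hWneg x hx0.le, hminA x hx.1 hx.2.le]
      simp only [hA, hB]
      rw [hfx, ← hwx, hG2 w ⟨hw0, hw1.le⟩]
      rcases max_cases (t + t ^ 3 * G w) (1 - t + t * G w) with ⟨h1, h2⟩ | ⟨h1, h2⟩
      · rw [h1]
        have e1 : l * (l * (1 - (t + t ^ 3 * G w))) = l ^ 2 - l - t * G w := by
          have : l * (l * (1 - (t + t ^ 3 * G w))) = l ^ 2 - l * (l * t) - t * (l * t) ^ 2 * G w := by
            ring
          rw [this, hl]; ring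
        rw [e1]
        apply min_eq_right
        have e2 : l * (1 - G w) = l * (l * (1 - (1 - t + t * G w))) := by
          have : l * (l * (1 - (1 - t + t * G w))) = l * (l * t) * (1 - G w) := by ring
          rw [this, hl]; ring
        rw [e2, ← e1]
        gcongr
      · rw [h1]
        have e2 : l * (l * (1 - (1 - t + t * G w))) = l * (1 - G w) := by
          have : l * (l * (1 - (1 - t + t * G w))) = l * (l * t) * (1 - G w) := by ring
          rw [this, hl]; ring
        rw [e2]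
        apply min_eq_left
        have e1 : l ^ 2 - l - t * G w = l * (l * (1 - (t + t ^ 3 * G w))) := by
          have : l * (l * (1 - (t + t ^ 3 * G w))) = l ^ 2 - l * (l * t) - t * (l * t) ^ 2 * G w := by
            ring
          rw [this, hl]; ring
        rw [e1, ← e2]
        gcongr
    intro x hx y hy
    rw [key x hx, key y hy]; ring
  · -- class 1
    have key : ∀ x ∈ Ico (β - 1 : ℝ) 0, W (f x) = l * W x + (1 + l ^ 2 - l - l * (l ^ 2 - l)) := by
      intro x hx
      rw [hf1 x hx, hWpos (x + 1) (by linarith [hx.1]), hWneg x hx.2.le, hminB x hx.1 hx.2.le]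
      simp only [hC, hB]
      have : l * (l ^ 2 - l - t * G (1 + x)) = l * (l ^ 2 - l) - (l * t) * G (1 + x) := by ring
      rw [this, hl, add_comm x 1]; ring
    intro x hx y hy
    rw [key x hx, key y hy]; ring
  · -- class 3
    have key : ∀ x ∈ Ioo (0 : ℝ) β, W (f x) = l * W x + (l - l * (1 + l ^ 2 - l)) := by
      intro x hx
      rw [hf2 x hx, hWneg (x - 1) (by linarith [hx.2]), hWpos x hx.1.le,
        hminA (x - 1) (by linarith [hx.1]) (by linarith [hx.2])]
      simp only [hC, hA]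
      rw [show 1 + (x - 1) = x by ring]; ring
    intro x hx y hy
    rw [key x hx, key y hy]; ring
  · -- class 4
    have key : ∀ x ∈ Icc β 1, W (f x) = l * W x + (1 - l) * (1 + l ^ 2 - l) := by
      intro x hx
      rcases lt_or_ge x (1 / 2) with h | h
      · have hx0 : 0 < x := lt_of_lt_of_le hβ0 hx.1
        have h1x : (0 : ℝ) < 1 - x := by linarith
        have h23 : (0 : ℝ) < 2 - 3 * x := by linarith
        set v : ℝ := x / (1 - x) with hv
        have hv0 : 0 ≤ v := by rw [hv]; positivity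
        have hv1 : v < 1 := by rw [hv, div_lt_one h1x]; linarith
        have hvx : x ≤ v := by rw [hv, le_div_iff₀ h1x]; nlinarith
        have hxv : x = v / (1 + v) := by
          have : 1 + v = 1 / (1 - x) := by rw [hv]; field_simp; ring
          rw [this, hv]; field_simp
        have hfx : 1 + f x = 1 / (2 - v) := by
          rw [hf3 x ⟨hx.1, h⟩]
          have : 2 - v = (2 - 3 * x) / (1 - x) := by rw [hv]; field_simp; ring
          rw [this]
          have h23' : 2 - 3 * x ≠ 0 := h23.ne'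
          have h1x' : 1 - x ≠ 0 := h1x.ne'
          rw [one_div_div, eq_div_iff h23', add_mul, div_mul_cancel₀ _ h23']; ring
        have h2v : (0 : ℝ) < 2 - v := by linarith
        have hhalf : 1 / 2 ≤ 1 / (2 - v) := one_div_le_one_div_of_le h2v (by linarith)
        have hone : 1 / (2 - v) ≤ 1 := by rw [div_le_one h2v]; linarith
        rw [hWneg (f x) (by linarith), hminB (f x) (by linarith) (by linarith), hWpos x hx0.le]
        simp only [hB, hC]
        have hGv : G v ≤ gD := by
          rw [← hGβ]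
          exact hGs.antitoneOn hβm ⟨hv0, hv1.le⟩ (hx.1.trans hvx)
        have hmax : max (t + t ^ 3 * G v) (1 - t + t * G v) = t + t ^ 3 * G v := by
          apply max_eq_left
          have : G v * (t * (1 - t ^ 2)) ≤ gD * (t * (1 - t ^ 2)) :=
            mul_le_mul_of_nonneg_right hGv (by positivity)
          rw [hgD] at this
          nlinarith
        have hGx : G x = t + t ^ 3 * G v := by
          rw [← hmax, ← hG2 v ⟨hv0, hv1.le⟩, ← hxv]
        rw [hfx, hG1 v ⟨hv0, hv1.le⟩, hGx]
        have : l * (1 + l ^ 2 - l - (t + t ^ 3 * G v)) =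
          l * (1 + l ^ 2 - l) - (l * t) - (l * t) * t ^ 2 * G v := by ring
        rw [this, hl]; ring
      · have hx0 : 0 < x := by linarith
        set v : ℝ := 2 - 1 / x with hv
        have h1 : 1 ≤ 1 / x := by rw [le_div_iff₀ hx0]; linarith [hx.2]
        have h2 : 1 / x ≤ 2 := by rw [div_le_iff₀ hx0]; linarith
        have hv0 : 0 ≤ v := by rw [hv]; linarith
        have hv1 : v ≤ 1 := by rw [hv]; linarith
        have hxv : x = 1 / (2 - v) := by rw [hv]; field_simp; ring
        rw [hf4 x ⟨h, hx.2⟩, ← hv, hWpos v hv0, hWpos x hx0.le]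
        simp only [hC]
        have hGx : G x = t * G v := by rw [← hG1 v ⟨hv0, hv1⟩, ← hxv]
        rw [hGx]
        have : l * (1 + l ^ 2 - l - t * G v) = l * (1 + l ^ 2 - l) - (l * t) * G v := by ring
        rw [this, hl]; ring
    intro x hx y hy
    rw [key x hx, key y hy]; ring

end Pool.Agent.Lib.MP_d04ad0_an
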