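import Mathlib

/-!
A de Rham / Minkowski type function: the solution `G` of the two functional equations
`G (1 / (2 - v)) = t * G v`, `G (v / (1 + v)) = H (G v)` on `[0, 1]`.
-/

open Set Filter Topology

namespace Pool.Agent.Lib.MP_d04ad0_an

section Gamma

/-- The operator whose fixed point is the function `G`. -/
private noncomputable def gT (t : ℝ) (H : ℝ → ℝ) (G : ℝ → ℝ) : ℝ → ℝ := fun v =>
  if v ≤ 1 / 2 then H (G (v / (1 - v))) else t * G (2 - 1 / v)

/-- Properties preserved by the operator. -/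
private structure GProp (G : ℝ → ℝ) : Prop where
  cont : ContinuousOn G (Icc 0 1)
  anti : AntitoneOn G (Icc 0 1)
  maps : MapsTo G (Icc 0 1) (Icc 0 1)
  zero : G 0 = 1
  one : G 1 = 0

private lemma left_mem {v : ℝ} (hv : v ∈ Icc (0 : ℝ) 1) (h : v ≤ 1 / 2) :
    v / (1 - v) ∈ Icc (0 : ℝ) 1 := by
  obtain ⟨h0, h1⟩ := hv
  have h2 : 0 < 1 - v := by linarith
  refine ⟨div_nonneg h0 h2.le, ?_⟩
  rw [div_le_one h2]; linarith

private lemma right_mem {v : ℝ} (hv : v ∈ Icc (0 : ℝ) 1) (h : 1 / 2 ≤ v) :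
    2 - 1 / v ∈ Icc (0 : ℝ) 1 := by
  obtain ⟨h0, h1⟩ := hv
  have hv0 : 0 < v := by linarith
  have h3 : 1 / v ≤ 2 := by
    rw [div_le_iff₀ hv0]; linarith
  have h4 : 1 ≤ 1 / v := by
    rw [le_div_iff₀ hv0]; linarith
  constructor <;> linarith

variable {t : ℝ} {H : ℝ → ℝ}

private lemma gT_right (H0 : H 0 = t) {G : ℝ → ℝ} (hG : GProp G) {v : ℝ}
    (h : 1 / 2 ≤ v) : gT t H G v = t * G (2 - 1 / v) := by
  unfold gT
  rcases lt_or_eq_of_le h with h' | h'
  · rw [if_neg (by linarith)]
  · rw [if_pos (by linarith), ← h']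
    have e1 : (1 / 2 : ℝ) / (1 - 1 / 2) = 1 := by norm_num
    have e2 : (2 : ℝ) - 1 / (1 / 2) = 0 := by norm_num
    rw [e1, e2, hG.one, hG.zero, H0, mul_one]

private lemma gT_left {G : ℝ → ℝ} {v : ℝ}
    (h : v ≤ 1 / 2) : gT t H G v = H (G (v / (1 - v))) := by
  unfold gT
  rw [if_pos h]

private lemma left_mono {x y : ℝ} (hxy : x ≤ y) (hy : y ≤ 1 / 2) :
    x / (1 - x) ≤ y / (1 - y) := by
  have h1 : 0 < 1 - x := by linarith
  have h2 : 0 < 1 - y := by linarith
  rw [div_le_div_iff₀ h1 h2]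
  nlinarith

private lemma left_strict {x y : ℝ} (hx : 0 ≤ x) (hxy : x < y) (hy : y ≤ 1 / 2) :
    x / (1 - x) < y / (1 - y) := by
  have h1 : 0 < 1 - x := by linarith
  have h2 : 0 < 1 - y := by linarith
  rw [div_lt_div_iff₀ h1 h2]
  nlinarith

private lemma right_mono {x y : ℝ} (hx : 1 / 2 ≤ x) (hxy : x ≤ y) :
    2 - 1 / x ≤ 2 - 1 / y := by
  have h1 : 0 < x := by linarith
  have := one_div_le_one_div_of_le h1 hxy
  linarith

private lemma right_strict {x y : ℝ} (hx : 1 / 2 ≤ x) (hxy : x < y) :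
    2 - 1 / x < 2 - 1 / y := by
  have h1 : 0 < x := by linarith
  have := one_div_lt_one_div_of_lt h1 hxy
  linarith

private lemma gT_prop (ht0 : 0 < t) (ht1 : t < 1)
    (hHs : StrictMonoOn H (Icc 0 1)) (H0 : H 0 = t) (H1 : H 1 = 1)
    (hHc : ContinuousOn H (Icc 0 1)) {G : ℝ → ℝ} (hG : GProp G) : GProp (gT t H G) := by
  have hHmem : ∀ u ∈ Icc (0 : ℝ) 1, t ≤ H u ∧ H u ≤ 1 := by
    intro u hu
    constructor
    · rw [← H0]; exact hHs.monotoneOn (by constructor <;> norm_num) hu hu.1
    · rw [← H1]; exact hHs.monotoneOn hu (by constructor <;> norm_num) hu.2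
  have hleft : ∀ v ∈ Icc (0 : ℝ) (1 / 2), t ≤ gT t H G v ∧ gT t H G v ≤ 1 := by
    intro v hv
    rw [gT_left hv.2]
    exact hHmem _ (hG.maps (left_mem ⟨hv.1, by linarith [hv.2]⟩ hv.2))
  have hright : ∀ v ∈ Icc (1 / 2 : ℝ) 1, 0 ≤ gT t H G v ∧ gT t H G v ≤ t := by
    intro v hv
    rw [gT_right H0 hG hv.1]
    have hm := hG.maps (right_mem ⟨by linarith [hv.1], hv.2⟩ hv.1)
    constructor
    · exact mul_nonneg ht0.le hm.1
    · nlinarith [hm.2]
  refine ⟨?_, ?_, ?_, ?_, ?_⟩
  · -- continuity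
    have hu : Icc (0 : ℝ) 1 = Icc 0 (1 / 2) ∪ Icc (1 / 2) 1 := by
      rw [Icc_union_Icc_eq_Icc] <;> norm_num
    rw [hu]
    refine ContinuousOn.union_of_isClosed ?_ ?_ isClosed_Icc isClosed_Icc
    · have : ContinuousOn (fun v => H (G (v / (1 - v)))) (Icc (0 : ℝ) (1 / 2)) := by
        refine hHc.comp (hG.cont.comp ?_ ?_) ?_
        · refine continuousOn_id.div (continuousOn_const.sub continuousOn_id) ?_
          intro v hv
          have := hv.2
          intro h
          have h' : (1 : ℝ) - v = 0 := h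
          linarith
        · intro v hv
          exact left_mem ⟨hv.1, by linarith [hv.2]⟩ hv.2
        · intro v hv
          exact hG.maps (left_mem ⟨hv.1, by linarith [hv.2]⟩ hv.2)
      refine this.congr ?_
      intro v hv
      exact gT_left hv.2
    · have : ContinuousOn (fun v => t * G (2 - 1 / v)) (Icc (1 / 2 : ℝ) 1) := by
        refine continuousOn_const.mul (hG.cont.comp ?_ ?_)
        · refine continuousOn_const.sub (continuousOn_const.div continuousOn_id ?_)
          intro v hv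
          have := hv.1
          intro h
          have h' : v = 0 := h
          linarith
        · intro v hv
          exact right_mem ⟨by linarith [hv.1], hv.2⟩ hv.1
      refine this.congr ?_
      intro v hv
      exact gT_right H0 hG hv.1
  · -- antitone
    intro x hx y hy hxy
    rcases le_total y (1 / 2) with hy2 | hy2
    · rw [gT_left hy2, gT_left (hxy.trans hy2)]
      refine hHs.monotoneOn (hG.maps (left_mem hy hy2))
        (hG.maps (left_mem hx (hxy.trans hy2))) ?_
      exact hG.anti (left_mem hx (hxy.trans hy2)) (left_mem hy hy2)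
        (left_mono hxy hy2)
    · rcases le_total x (1 / 2) with hx2 | hx2
      · exact (hright y ⟨hy2, hy.2⟩).2.trans (hleft x ⟨hx.1, hx2⟩).1
      · rw [gT_right H0 hG hy2, gT_right H0 hG hx2]
        refine mul_le_mul_of_nonneg_left ?_ ht0.le
        exact hG.anti (right_mem hx hx2) (right_mem hy hy2) (right_mono hx2 hxy)
  · intro v hv
    rcases le_total v (1 / 2) with h | h
    · exact ⟨ht0.le.trans (hleft v ⟨hv.1, h⟩).1, (hleft v ⟨hv.1, h⟩).2⟩
    · exact ⟨(hright v ⟨h, hv.2⟩).1, (hright v ⟨h, hv.2⟩).2.trans ht1.le⟩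
  · rw [gT_left (by norm_num)]
    rw [zero_div, hG.zero, H1]
  · rw [gT_right H0 hG (by norm_num)]
    have e : (2 : ℝ) - 1 / 1 = 1 := by norm_num
    rw [e, hG.one, mul_zero]

private lemma gT_contr (ht0 : 0 < t)
    (hLip : ∀ x ∈ Icc (0 : ℝ) 1, ∀ y ∈ Icc (0 : ℝ) 1, |H x - H y| ≤ t * |x - y|)
    {G G' : ℝ → ℝ} (hG : MapsTo G (Icc 0 1) (Icc 0 1)) (hG' : MapsTo G' (Icc 0 1) (Icc 0 1))
    {c : ℝ} (hc : ∀ v ∈ Icc (0 : ℝ) 1, |G v - G' v| ≤ c) :
    ∀ v ∈ Icc (0 : ℝ) 1, |gT t H G v - gT t H G' v| ≤ t * c := by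
  intro v hv
  by_cases h : v ≤ 1 / 2
  · rw [gT_left h, gT_left h]
    have hm := left_mem hv h
    exact (hLip _ (hG hm) _ (hG' hm)).trans
      (mul_le_mul_of_nonneg_left (hc _ hm) ht0.le)
  · unfold gT
    rw [if_neg h, if_neg h, ← mul_sub, abs_mul, abs_of_pos ht0]
    exact mul_le_mul_of_nonneg_left (hc _ (right_mem hv (by linarith))) ht0.le

/-- The iterates starting from `1 - v`. -/
private noncomputable def gSeq (t : ℝ) (H : ℝ → ℝ) : ℕ → ℝ → ℝ
  | 0 => fun v => 1 - v
  | n + 1 => gT t H (gSeq t H n)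

private lemma gSeq_prop (ht0 : 0 < t) (ht1 : t < 1)
    (hHs : StrictMonoOn H (Icc 0 1)) (H0 : H 0 = t) (H1 : H 1 = 1)
    (hHc : ContinuousOn H (Icc 0 1)) (n : ℕ) : GProp (gSeq t H n) := by
  induction n with
  | zero =>
    refine ⟨?_, ?_, ?_, ?_, ?_⟩
    · exact (continuous_const.sub continuous_id).continuousOn
    · intro x _ y _ hxy
      simp only [gSeq]
      linarith
    · intro v hv
      simp only [gSeq]
      exact ⟨by linarith [hv.2], by linarith [hv.1]⟩
    · simp [gSeq]
    · simp [gSeq]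
  | succ n ih => exact gT_prop ht0 ht1 hHs H0 H1 hHc ih

theorem exists_gamma (t : ℝ) (ht0 : 0 < t) (ht1 : t < 1) (H : ℝ → ℝ)
    (hHs : StrictMonoOn H (Icc 0 1)) (H0 : H 0 = t) (H1 : H 1 = 1)
    (hLip : ∀ x ∈ Icc (0 : ℝ) 1, ∀ y ∈ Icc (0 : ℝ) 1, |H x - H y| ≤ t * |x - y|) :
    ∃ G : ℝ → ℝ, ContinuousOn G (Icc 0 1) ∧ StrictAntiOn G (Icc 0 1) ∧ G 0 = 1 ∧ G 1 = 0 ∧
      (∀ v ∈ Icc (0 : ℝ) 1, G (1 / (2 - v)) = t * G v) ∧
      (∀ v ∈ Icc (0 : ℝ) 1, G (v / (1 + v)) = H (G v)) := by
  have hHc : ContinuousOn H (Icc 0 1) := by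
    rw [Metric.continuousOn_iff]
    intro b hb ε hε
    refine ⟨ε, hε, ?_⟩
    intro a ha hab
    rw [Real.dist_eq] at hab ⊢
    have h := hLip a ha b hb
    have h2 : 0 ≤ |a - b| := abs_nonneg _
    nlinarith
  have hP : ∀ n, GProp (gSeq t H n) := gSeq_prop ht0 ht1 hHs H0 H1 hHc
  -- successive differences
  have hd : ∀ n, ∀ v ∈ Icc (0 : ℝ) 1, |gSeq t H n v - gSeq t H (n + 1) v| ≤ 1 * t ^ n := by
    intro n
    induction n with
    | zero =>
      intro v hv
      have h1 := (hP 0).maps hv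
      have h2 := (hP 1).maps hv
      rw [pow_zero, mul_one, abs_le]
      constructor <;> linarith [h1.1, h1.2, h2.1, h2.2]
    | succ n ih =>
      intro v hv
      have := gT_contr ht0 hLip (hP n).maps (hP (n + 1)).maps ih v hv
      calc |gSeq t H (n + 1) v - gSeq t H (n + 1 + 1) v| ≤ t * (1 * t ^ n) := this
        _ = 1 * t ^ (n + 1) := by ring
  have hcau : ∀ v ∈ Icc (0 : ℝ) 1, CauchySeq (fun n => gSeq t H n v) := by
    intro v hv
    refine cauchySeq_of_le_geometric t 1 ht1 ?_
    intro n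
    rw [Real.dist_eq]
    exact hd n v hv
  have hlim : ∀ v ∈ Icc (0 : ℝ) 1, ∃ l, Tendsto (fun n => gSeq t H n v) atTop (𝓝 l) :=
    fun v hv => cauchySeq_tendsto_of_complete (hcau v hv)
  choose! G hG using hlim
  have hunif : TendstoUniformlyOn (fun n => gSeq t H n) G atTop (Icc 0 1) := by
    rw [Metric.tendstoUniformlyOn_iff]
    intro ε hε
    have h0 : Tendsto (fun n : ℕ => 1 * t ^ n / (1 - t)) atTop (𝓝 0) := by
      have := (tendsto_pow_atTop_nhds_zero_of_lt_one ht0.le ht1)
      have h := (this.const_mul 1).div_const (1 - t)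
      simpa using h
    filter_upwards [h0.eventually (gt_mem_nhds hε)] with n hn v hv
    have := dist_le_of_le_geometric_of_tendsto t 1 ht1
      (fun n => by rw [Real.dist_eq]; exact hd n v hv) (hG v hv) n
    rw [dist_comm]
    exact this.trans_lt hn
  have hGc : ContinuousOn G (Icc 0 1) :=
    hunif.continuousOn (Frequently.of_forall fun n => (hP n).cont)
  have hGanti : AntitoneOn G (Icc 0 1) := by
    intro x hx y hy hxy
    exact le_of_tendsto_of_tendsto' (hG y hy) (hG x hx) (fun n => (hP n).anti hx hy hxy)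
  have hGm : MapsTo G (Icc 0 1) (Icc 0 1) := by
    intro v hv
    exact ⟨ge_of_tendsto' (hG v hv) (fun n => ((hP n).maps hv).1),
      le_of_tendsto' (hG v hv) (fun n => ((hP n).maps hv).2)⟩
  have m0 : (0 : ℝ) ∈ Icc (0 : ℝ) 1 := by constructor <;> norm_num
  have m1 : (1 : ℝ) ∈ Icc (0 : ℝ) 1 := by constructor <;> norm_num
  have G0 : G 0 = 1 := by
    refine tendsto_nhds_unique (hG 0 m0) ?_
    simp only [fun n => (hP n).zero]
    exact tendsto_const_nhds
  have G1 : G 1 = 0 := by
    refine tendsto_nhds_unique (hG 1 m1) ?_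
    simp only [fun n => (hP n).one]
    exact tendsto_const_nhds
  have hGP : GProp G := ⟨hGc, hGanti, hGm, G0, G1⟩
  have hfixL : ∀ v ∈ Icc (0 : ℝ) 1, v ≤ 1 / 2 → G v = H (G (v / (1 - v))) := by
    intro v hv h
    have hm := left_mem hv h
    have h1 : Tendsto (fun n => gSeq t H (n + 1) v) atTop (𝓝 (G v)) :=
      (hG v hv).comp (tendsto_add_atTop_nat 1)
    have h2 : Tendsto (fun n => H (gSeq t H n (v / (1 - v)))) atTop
        (𝓝 (H (G (v / (1 - v))))) := by
      have hc := hHc (G (v / (1 - v))) (hGm hm)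
      refine hc.tendsto.comp ?_
      rw [tendsto_nhdsWithin_iff]
      exact ⟨hG _ hm, Eventually.of_forall fun n => (hP n).maps hm⟩
    refine tendsto_nhds_unique h1 ?_
    refine h2.congr ?_
    intro n
    exact (gT_left h).symm
  have hfixR : ∀ v ∈ Icc (0 : ℝ) 1, 1 / 2 ≤ v → G v = t * G (2 - 1 / v) := by
    intro v hv h
    have hm := right_mem hv h
    have h1 : Tendsto (fun n => gSeq t H (n + 1) v) atTop (𝓝 (G v)) :=
      (hG v hv).comp (tendsto_add_atTop_nat 1)
    refine tendsto_nhds_unique h1 ?_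
    refine ((hG _ hm).const_mul t).congr ?_
    intro n
    exact (gT_right H0 (hP n) h).symm
  have hG1 : ∀ v ∈ Icc (0 : ℝ) 1, G (1 / (2 - v)) = t * G v := by
    intro v hv
    have h2 : 0 < 2 - v := by linarith [hv.2]
    have hw : 1 / (2 - v) ∈ Icc (0 : ℝ) 1 := by
      constructor
      · positivity
      · rw [div_le_one h2]; linarith [hv.2]
    have hw2 : 1 / 2 ≤ 1 / (2 - v) := by
      apply one_div_le_one_div_of_le h2; linarith [hv.1]
    rw [hfixR _ hw hw2, one_div_one_div]
    congr 2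
    ring
  have hG2 : ∀ v ∈ Icc (0 : ℝ) 1, G (v / (1 + v)) = H (G v) := by
    intro v hv
    have h2 : 0 < 1 + v := by linarith [hv.1]
    have hw2 : v / (1 + v) ≤ 1 / 2 := by
      rw [div_le_div_iff₀ h2 (by norm_num)]; linarith [hv.2]
    have hw : v / (1 + v) ∈ Icc (0 : ℝ) 1 := by
      constructor
      · exact div_nonneg hv.1 h2.le
      · linarith
    rw [hfixL _ hw hw2]
    have : v / (1 + v) / (1 - v / (1 + v)) = v := by
      have : 1 - v / (1 + v) = 1 / (1 + v) := by field_simp; ring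
      rw [this]
      field_simp
    rw [this]
  have Ghalf : G (1 / 2) = t := by
    have := hG1 0 m0
    rw [sub_zero, G0, mul_one] at this
    exact this
  -- positivity
  have hpow : ∀ n : ℕ, G ((n : ℝ) / (n + 1)) = t ^ n := by
    intro n
    induction n with
    | zero => simp [G0]
    | succ n ih =>
      have hm : ((n : ℝ) / (n + 1)) ∈ Icc (0 : ℝ) 1 := by
        constructor
        · positivity
        · rw [div_le_one (by positivity)]; linarith
      have := hG1 _ hm
      rw [ih] at this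
      have e : 1 / (2 - (n : ℝ) / (n + 1)) = ((n + 1 : ℕ) : ℝ) / ((n + 1 : ℕ) + 1) := by
        push_cast
        have h1 : (n : ℝ) + 1 ≠ 0 := by positivity
        have h2 : (n : ℝ) + 1 + 1 ≠ 0 := by positivity
        have h3 : 2 - (n : ℝ) / (n + 1) = (n + 1 + 1) / (n + 1) := by
          field_simp; ring
        rw [h3, one_div_div]
      rw [e] at this
      rw [this]; ring
  have hpos : ∀ z ∈ Icc (0 : ℝ) 1, z < 1 → 0 < G z := by
    intro z hz hz1
    obtain ⟨n, hn⟩ := exists_nat_gt (1 / (1 - z))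
    have h1z : 0 < 1 - z := by linarith
    have hn1 : 1 < n * (1 - z) := by
      rw [div_lt_iff₀ h1z] at hn; exact hn
    have hm : ((n : ℝ) / (n + 1)) ∈ Icc (0 : ℝ) 1 := by
      constructor
      · positivity
      · rw [div_le_one (by positivity)]; linarith
    have hle : z ≤ (n : ℝ) / (n + 1) := by
      rw [le_div_iff₀ (by positivity)]
      nlinarith
    have := hGanti hz hm hle
    rw [hpow] at this
    exact lt_of_lt_of_le (pow_pos ht0 n) this
  have hlt' : ∀ n : ℕ, G (1 / ((n : ℝ) + 2)) < 1 := by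
    intro n
    induction n with
    | zero =>
      have : (1 : ℝ) / (((0 : ℕ) : ℝ) + 2) = 1 / 2 := by norm_num
      rw [this, Ghalf]; exact ht1
    | succ n ih =>
      have hm : (1 / ((n : ℝ) + 2)) ∈ Icc (0 : ℝ) 1 := by
        constructor
        · positivity
        · rw [div_le_one (by positivity)]; linarith [Nat.cast_nonneg (α := ℝ) n]
      have := hG2 _ hm
      have e : 1 / ((n : ℝ) + 2) / (1 + 1 / ((n : ℝ) + 2)) = 1 / (((n + 1 : ℕ) : ℝ) + 2) := by
        push_cast
        have h1 : (n : ℝ) + 2 ≠ 0 := by positivity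
        have h2 : 1 + 1 / ((n : ℝ) + 2) = (n + 1 + 2) / (n + 2) := by
          field_simp; ring
        rw [h2]
        have h3 : (n : ℝ) + 1 + 2 ≠ 0 := by positivity
        field_simp
      rw [e] at this
      rw [this]
      have h5 := hHs (hGm hm) m1 ih
      rw [H1] at h5
      exact h5
  have hlt : ∀ z ∈ Icc (0 : ℝ) 1, 0 < z → G z < 1 := by
    intro z hz hz0
    obtain ⟨n, hn⟩ := exists_nat_gt (1 / z)
    have hn1 : 1 < n * z := by
      rw [div_lt_iff₀ hz0] at hn; exact hn
    have hm : (1 / ((n : ℝ) + 2)) ∈ Icc (0 : ℝ) 1 := by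
      constructor
      · positivity
      · rw [div_le_one (by positivity)]; linarith [Nat.cast_nonneg (α := ℝ) n]
    have hle : 1 / ((n : ℝ) + 2) ≤ z := by
      rw [div_le_iff₀ (by positivity)]
      nlinarith
    exact (hGanti hm hz hle).trans_lt (hlt' n)
  have hlt_t : ∀ y ∈ Icc (0 : ℝ) 1, 1 / 2 < y → G y < t := by
    intro y hy h
    rw [hfixR y hy h.le]
    have hm := right_mem hy h.le
    have h0 : 0 < 2 - 1 / y := by
      have := right_strict (le_refl (1 / 2 : ℝ)) h
      norm_num at this ⊢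
      linarith
    have := hlt _ hm h0
    nlinarith
  have hgt_t : ∀ x ∈ Icc (0 : ℝ) 1, x < 1 / 2 → t < G x := by
    intro x hx h
    rw [hfixL x hx h.le]
    have hm := left_mem hx h.le
    have h1 : x / (1 - x) < 1 := by
      rw [div_lt_one (by linarith)]; linarith
    have := hpos _ hm h1
    have h3 := hHs m0 (hGm hm) this
    rw [H0] at h3
    exact h3
  have key : ∀ N : ℕ, ∀ p q : ℕ, p + q = N → 0 < p → 0 < q → ∀ x ∈ Icc (0 : ℝ) 1,
      ∀ y ∈ Icc (0 : ℝ) 1, x < (p : ℝ) / (p + q) → (p : ℝ) / (p + q) < y → G y < G x := by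
    intro N
    induction N using Nat.strong_induction_on with
    | _ N ih =>
      intro p q hN hp hq x hx y hy hxv hvy
      have hp' : (0 : ℝ) < p := by exact_mod_cast hp
      have hq' : (0 : ℝ) < q := by exact_mod_cast hq
      rcases lt_trichotomy p q with hpq | hpq | hpq
      · -- v < 1/2
        have hpq' : (p : ℝ) < q := by exact_mod_cast hpq
        have hv : (p : ℝ) / (p + q) < 1 / 2 := by
          rw [div_lt_div_iff₀ (by positivity) (by norm_num)]; linarith
        rcases le_or_gt y (1 / 2) with hy2 | hy2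
        · have hx2 : x ≤ 1 / 2 := by linarith
          rw [hfixL x hx hx2, hfixL y hy hy2]
          have hmx := left_mem hx hx2
          have hmy := left_mem hy hy2
          refine hHs (hGm hmy) (hGm hmx) ?_
          have e : ((p : ℝ) / (p + q)) / (1 - (p : ℝ) / (p + q)) =
              (p : ℝ) / ((p : ℝ) + ((q - p : ℕ) : ℝ)) := by
            rw [Nat.cast_sub hpq.le]
            have h1 : 1 - (p : ℝ) / (p + q) = q / (p + q) := by
              field_simp; ring
            rw [h1]
            have h2 : (p : ℝ) + ((q : ℝ) - p) = q := by ring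
            rw [h2]
            field_simp
          refine ih (p + (q - p)) (by omega) p (q - p) rfl hp (by omega) _ hmx _ hmy ?_ ?_
          · rw [← e]
            exact left_strict hx.1 hxv hv.le
          · rw [← e]
            exact left_strict (by positivity) hvy hy2
        · exact (hlt_t y hy hy2).trans (hgt_t x hx (by linarith))
      · -- v = 1/2
        subst hpq
        have hv : (p : ℝ) / (p + p) = 1 / 2 := by
          field_simp; ring
        rw [hv] at hxv hvy
        exact (hlt_t y hy hvy).trans (hgt_t x hx hxv)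
      · have hpq' : (q : ℝ) < p := by exact_mod_cast hpq
        have hv : 1 / 2 < (p : ℝ) / (p + q) := by
          rw [div_lt_div_iff₀ (by norm_num) (by positivity)]; linarith
        rcases le_or_gt (1 / 2) x with hx2 | hx2
        · have hy2 : 1 / 2 ≤ y := by linarith
          rw [hfixR x hx hx2, hfixR y hy hy2]
          have hmx := right_mem hx hx2
          have hmy := right_mem hy hy2
          refine mul_lt_mul_of_pos_left ?_ ht0
          have e : 2 - 1 / ((p : ℝ) / (p + q)) =
              ((p - q : ℕ) : ℝ) / (((p - q : ℕ) : ℝ) + (q : ℝ)) := by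
            rw [Nat.cast_sub hpq.le]
            have h1 : (p : ℝ) - q + q = p := by ring
            rw [h1]
            field_simp
            ring
          refine ih (p - q + q) (by omega) (p - q) q rfl (by omega) hq _ hmx _ hmy ?_ ?_
          · rw [← e]
            exact right_strict hx2 hxv
          · rw [← e]
            exact right_strict hv.le hvy
        · exact (hlt_t y hy (by linarith)).trans (hgt_t x hx hx2)
  have hstrict : StrictAntiOn G (Icc 0 1) := by
    intro x hx y hy hxy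
    obtain ⟨r, hr1, hr2⟩ := exists_rat_btwn hxy
    have hr0 : (0 : ℝ) < r := lt_of_le_of_lt hx.1 hr1
    have hr1' : (r : ℝ) < 1 := lt_of_lt_of_le hr2 hy.2
    have hr0q : 0 < r := by exact_mod_cast hr0
    have hr1q : r < 1 := by exact_mod_cast hr1'
    have hnum : 0 < r.num := Rat.num_pos.mpr hr0q
    have hlt2 : r.num < r.den := by
      exact Rat.num_lt_denom_iff.mpr hr1q
    obtain ⟨p, hp⟩ : ∃ p : ℕ, r.num = p := ⟨r.num.toNat, by omega⟩
    have hp0 : 0 < p := by omega
    have hpd : p < r.den := by omega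
    have hv : (p : ℝ) / (p + ((r.den - p : ℕ) : ℝ)) = r := by
      rw [Nat.cast_sub hpd.le]
      have h1 : (p : ℝ) + (r.den - p) = r.den := by ring
      rw [h1]
      have h2 : (r : ℝ) = (r.num : ℝ) / (r.den : ℝ) := by
        exact_mod_cast (Rat.num_div_den r).symm
      rw [h2, hp]
      norm_num
    refine key (p + (r.den - p)) p (r.den - p) rfl hp0 (by omega) x hx y hy ?_ ?_
    · rw [hv]; exact hr1
    · rw [hv]; exact hr2
  exact ⟨G, hGc, hstrict, G0, G1, hG1, hG2⟩

end Gamma

end Pool.Agent.Lib.MP_d04ad0_an
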